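import Pool.Agent.Q271.LD2.Phase2

set_option autoImplicit false

/-!
# Iteration of the phases with light rows
-/

open MeasureTheory ProbabilityTheory

namespace Pool.Agent.Q271.LD2

open Pool.Agent.H320R2.LD

/-- ITER2: iteration of the phases. -/
def St_ITER2 : Prop := ∃ C t0 : ℝ, 0 < C ∧ 2 ≤ t0 ∧ ∀ (t : ℝ), t0 ≤ t →
  ∀ (V W W' : Type) [Fintype V] [Fintype W] [Fintype W'] (A : W → V → ℝ) (B : W' → V → ℝ)
  (k : W' → ℕ) (μ : W' → ℝ), Adm2 t A → Lgt t B k μ →
  ∃ a : V → ℝ, (∀ v, |a v| ≤ 1) ∧ (∀ R, Phi A a R ≤ 1 / Real.log t) ∧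
    (∀ R, |∑ v, A R v * a v| ≤ C) ∧ ∀ i, |∑ v, B i v * a v| ≤ (9/10) ^ (k i) + μ i

theorem prove_ITER2 (h1 : St_PHASE2) : St_ITER2 := by
  obtain ⟨C, t0, hC, ht0, hph⟩ := h1
  obtain ⟨t1, ht1⟩ := Filter.eventually_atTop.mp ev_big
  set ρ : ℝ := (4/5 : ℝ) ^ (1/4 : ℝ) with hρ
  have hρ0 : 0 < ρ := Real.rpow_pos_of_pos (by norm_num) _
  have hρ1 : ρ < 1 := Real.rpow_lt_one (by norm_num) (by norm_num) (by norm_num)
  have hgeo : ∀ j : ℕ, ∑ i ∈ Finset.range j, ρ ^ i ≤ 1 / (1 - ρ) := by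
    intro j
    rw [geom_sum_eq hρ1.ne, ← neg_div_neg_eq, neg_sub, neg_sub]
    exact div_le_div_of_nonneg_right (by linarith [pow_pos hρ0 j]) (by linarith)
  refine ⟨C * (1 / (1 - ρ)), max t0 t1, mul_pos hC (one_div_pos.mpr (by linarith)),
    le_trans ht0 (le_max_left _ _), ?_⟩
  intro t ht V W W' _ _ _ A B k μ hA hB
  have htt0 : t0 ≤ t := (le_max_left _ _).trans ht
  have hbig : Big t := ht1 t ((le_max_right _ _).trans ht)
  have htp := hbig.pos
  have hL1 := hbig.L1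
  have hlog : 0 < Real.log t := by linarith
  have hL11 := hbig.2.2.2.2.2.1
  have hLsq := hbig.Lsq
  have hrlog : t ^ (-(1/100) : ℝ) ≤ 1 / Real.log t := by
    rw [Real.rpow_neg htp.le, ← one_div]
    refine one_div_le_one_div_of_le hlog ?_
    nlinarith
  have hex : ∃ n : ℕ, (4/5 : ℝ) ^ n ≤ 1 / Real.log t := by
    obtain ⟨n, hn⟩ := exists_pow_lt_of_lt_one (one_div_pos.mpr hlog) (show (4/5 : ℝ) < 1 by norm_num)
    exact ⟨n, hn.le⟩
  classical
  set n := Nat.find hex with hn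
  have hn1 : (4/5 : ℝ) ^ n ≤ 1 / Real.log t := Nat.find_spec hex
  have hn2 : ∀ j < n, 1 / Real.log t < (4/5 : ℝ) ^ j := fun j hj =>
    not_le.mp (Nat.find_min hex hj)
  have hnle : (n : ℝ) ≤ t ^ (1/200 : ℝ) := by
    rcases Nat.eq_zero_or_pos n with h0 | h0
    · rw [h0]; simp; positivity
    · have h2 := hn2 (n - 1) (by omega)
      have h3 : (5/4 : ℝ) ^ (n - 1) < Real.log t := by
        have h4 : (4/5 : ℝ) ^ (n - 1) * (5/4) ^ (n - 1) = 1 := by rw [← mul_pow]; norm_num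
        have h5 : (0:ℝ) < (5/4) ^ (n - 1) := by positivity
        rw [div_lt_iff₀ hlog] at h2
        nlinarith
      have h6 := one_add_mul_le_pow (a := (1/4 : ℝ)) (by norm_num) (n - 1)
      have h7 : (1 + 1/4 : ℝ) = 5/4 := by norm_num
      rw [h7] at h6
      have h8 : ((n - 1 : ℕ) : ℝ) = (n : ℝ) - 1 := by
        rw [Nat.cast_sub h0]; simp
      rw [h8] at h6
      linarith
  have key : ∀ j : ℕ, j ≤ n → ∃ a : V → ℝ, (∀ v, |a v| ≤ 1) ∧ (∀ R, Phi A a R ≤ (4/5 : ℝ) ^ j) ∧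
      (∀ R, |∑ v, A R v * a v| ≤ C * ∑ i ∈ Finset.range j, ρ ^ i) ∧
      ∀ i, |∑ v, B i v * a v| ≤ (j : ℝ) * dl t (k i) (μ i) := by
    intro j
    induction j with
    | zero =>
      intro _
      refine ⟨fun _ => 0, fun v => by simp, fun R => ?_, fun R => by simp, fun i => by simp⟩
      unfold Phi
      simpa using hA.2.1 R
    | succ j ih =>
      intro hj
      obtain ⟨a, ha1, ha2, ha3, ha4⟩ := ih (by omega)
      have hjn : j < n := by omega
      obtain ⟨a', ha1', ha2', ha3', ha4'⟩ := hph t ((4/5 : ℝ) ^ j) htt0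
        (hrlog.trans (hn2 j hjn).le) (pow_le_one₀ (by norm_num) (by norm_num)) V W W' A B k μ a
        hA hB ha1 ha2
      refine ⟨a', ha1', fun R => ?_, fun R => ?_, fun i => ?_⟩
      · have := ha2' R
        rw [pow_succ]
        linarith
      · have h1 := ha3 R
        have h2 := ha3' R
        have h3 : ∑ v, A R v * a' v = ∑ v, A R v * a v + ∑ v, A R v * (a' v - a v) := by
          rw [← Finset.sum_add_distrib]
          exact Finset.sum_congr rfl fun v _ => by ring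
        have h4 : ((4/5 : ℝ) ^ j) ^ (1/4 : ℝ) = ρ ^ j := by
          rw [hρ, ← Real.rpow_natCast, ← Real.rpow_natCast, ← Real.rpow_mul (by norm_num),
            ← Real.rpow_mul (by norm_num), mul_comm]
        rw [h4] at h2
        rw [h3, Finset.sum_range_succ, mul_add]
        exact (abs_add_le _ _).trans (add_le_add h1 h2)
      · have h3 : ∑ v, B i v * a' v = ∑ v, B i v * a v + ∑ v, B i v * (a' v - a v) := by
          rw [← Finset.sum_add_distrib]
          exact Finset.sum_congr rfl fun v _ => by ring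
        rw [h3]
        push_cast
        have h4 := ha4 i
        have h5 := ha4' i
        have h6 := abs_add_le (∑ v, B i v * a v) (∑ v, B i v * (a' v - a v))
        linarith
  obtain ⟨a, ha1, ha2, ha3, ha4⟩ := key n le_rfl
  refine ⟨a, ha1, fun R => (ha2 R).trans hn1, fun R => (ha3 R).trans ?_, fun i => ?_⟩
  · exact mul_le_mul_of_nonneg_left (hgeo n) hC.le
  · refine (ha4 i).trans ?_
    have hμ := (hB.1 i).1
    have e1 : t ^ (1/200 : ℝ) * t ^ (-(1/200) : ℝ) = 1 := by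
      rw [← Real.rpow_add htp]; norm_num
    have e2 : 0 < dl t (k i) (μ i) := dl_pos htp _ _ hμ
    calc (n : ℝ) * dl t (k i) (μ i) ≤ t ^ (1/200 : ℝ) * dl t (k i) (μ i) :=
          mul_le_mul_of_nonneg_right hnle e2.le
      _ = (t ^ (1/200 : ℝ) * t ^ (-(1/200) : ℝ)) * ((9/10) ^ (k i) + μ i) := by
          unfold dl; ring
      _ = _ := by rw [e1, one_mul]

end Pool.Agent.Q271.LD2
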