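import Pool.Agent.H320R2.LD.LLL

set_option autoImplicit false

/-!
# The asymmetric local lemma on a product space, in a weighted form
-/

open MeasureTheory ProbabilityTheory

namespace Pool.Agent.Q271.LD2

open Pool.Agent.H320R2.LD Pool.Agent.H320R2.LD.LLL

open Classical in
theorem wkey (hmix : St_MIX) {V J : Type} [Fintype V] [Fintype J] (ν : V → Measure ℝ)
    [∀ v, IsProbabilityMeasure (ν v)] (E : J → Set (V → ℝ)) (S : J → Finset V)
    (hE : ∀ i, MeasurableSet (E i)) (hdep : ∀ i, Dep (E i) (S i))
    (y : J → ℝ) (hy0 : ∀ i, 0 ≤ y i) (hy1 : ∀ i, y i ≤ 1 / 2)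
    (hP : ∀ i, (Measure.pi ν).real (E i) ≤
      y i * ∏ j ∈ Finset.univ.filter (fun j => ¬ Disjoint (S i) (S j)), (1 - y j)) (n : ℕ) :
    ∀ X : Finset J, X.card = n → ∀ i,
      (Measure.pi ν).real (E i ∩ Av E X) ≤ y i * (Measure.pi ν).real (Av E X) := by
  induction n using Nat.strong_induction_on with
  | _ n ih =>
    intro X hX i
    set μ := Measure.pi ν with hμ
    set X1 := X.filter (fun j => ¬ Disjoint (S i) (S j)) with hX1
    set X2 := X.filter (fun j => Disjoint (S i) (S j)) with hX2
    have hX2X : X2 ⊆ X := Finset.filter_subset _ _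
    have h1 : μ.real (E i ∩ Av E X) ≤ μ.real (E i) * μ.real (Av E X2) := by
      calc μ.real (E i ∩ Av E X) ≤ μ.real (E i ∩ Av E X2) :=
            measureReal_mono (Set.inter_subset_inter_right _ (Av_anti hX2X))
        _ = μ.real (E i) * μ.real (Av E X2) := by
            refine indep hmix ν (hE i) (Av_meas hE X2) (hdep i) (Av_dep hdep X2) ?_
            rw [Finset.disjoint_biUnion_right]
            intro j hj
            exact (Finset.mem_filter.1 hj).2
    have h2 : ∀ Z : Finset J, Z ⊆ X1 →
        (∏ j ∈ Z, (1 - y j)) * μ.real (Av E X2) ≤ μ.real (Av E (X2 ∪ Z)) := by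
      intro Z
      induction Z using Finset.induction_on with
      | empty =>
        intro _
        simp
      | insert j Z hjZ ihZ =>
        intro hsub
        have hZ : Z ⊆ X1 := fun a ha => hsub (Finset.mem_insert_of_mem ha)
        have hj1 : j ∈ X1 := hsub (Finset.mem_insert_self _ _)
        have hjX : j ∈ X := (Finset.mem_filter.1 hj1).1
        have hj2 : j ∉ X2 := fun h => (Finset.mem_filter.1 hj1).2 (Finset.mem_filter.1 h).2
        have hlt : (X2 ∪ Z).card < n := by
          rw [← hX]
          refine Finset.card_lt_card ((Finset.ssubset_iff_of_subset ?_).2 ⟨j, hjX, ?_⟩)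
          · refine Finset.union_subset hX2X (fun a ha => ?_)
            exact (Finset.mem_filter.1 (hZ ha)).1
          · rw [Finset.mem_union, not_or]
            exact ⟨hj2, hjZ⟩
        have hih := ih _ hlt (X2 ∪ Z) rfl j
        have hsub2 : Av E (X2 ∪ Z) ⊆ Av E (X2 ∪ insert j Z) ∪ (E j ∩ Av E (X2 ∪ Z)) := by
          intro x hx
          by_cases hxj : x ∈ E j
          · exact Or.inr ⟨hxj, hx⟩
          · left
            intro a ha
            rw [Finset.mem_union, Finset.mem_insert] at ha
            rcases ha with ha | rfl | ha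
            · exact hx a (Finset.mem_union_left _ ha)
            · exact hxj
            · exact hx a (Finset.mem_union_right _ ha)
        have h3 : μ.real (Av E (X2 ∪ Z)) ≤ μ.real (Av E (X2 ∪ insert j Z)) +
            μ.real (E j ∩ Av E (X2 ∪ Z)) :=
          (measureReal_mono hsub2).trans (measureReal_union_le _ _)
        have h4 := ihZ hZ
        rw [Finset.prod_insert hjZ, mul_assoc]
        have h5 : 0 ≤ 1 - y j := by linarith [hy1 j]
        have h6 := mul_le_mul_of_nonneg_left h4 h5
        have h7 : (1 - y j) * μ.real (Av E (X2 ∪ Z)) ≤ μ.real (Av E (X2 ∪ insert j Z)) := by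
          linarith
        linarith
    have h3 := h2 X1 (Finset.Subset.refl _)
    have h4 : X2 ∪ X1 = X := by
      ext a
      rw [Finset.mem_union, hX1, hX2, Finset.mem_filter, Finset.mem_filter]
      tauto
    rw [h4] at h3
    have h5 : ∏ j ∈ Finset.univ.filter (fun j => ¬ Disjoint (S i) (S j)), (1 - y j) ≤
        ∏ j ∈ X1, (1 - y j) := by
      have hsub : X1 ⊆ Finset.univ.filter (fun j => ¬ Disjoint (S i) (S j)) := by
        intro a ha
        rw [Finset.mem_filter]
        exact ⟨Finset.mem_univ _, (Finset.mem_filter.1 ha).2⟩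
      rw [← Finset.prod_sdiff hsub]
      refine mul_le_of_le_one_left (Finset.prod_nonneg fun j _ => by linarith [hy1 j]) ?_
      exact Finset.prod_le_one (fun j _ => by linarith [hy1 j]) (fun j _ => by linarith [hy0 j])
    have h6 : 0 ≤ μ.real (Av E X2) := measureReal_nonneg
    calc μ.real (E i ∩ Av E X) ≤ μ.real (E i) * μ.real (Av E X2) := h1
      _ ≤ (y i * ∏ j ∈ Finset.univ.filter (fun j => ¬ Disjoint (S i) (S j)), (1 - y j)) *
          μ.real (Av E X2) := mul_le_mul_of_nonneg_right (hP i) h6
      _ ≤ (y i * ∏ j ∈ X1, (1 - y j)) * μ.real (Av E X2) :=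
          mul_le_mul_of_nonneg_right (mul_le_mul_of_nonneg_left h5 (hy0 i)) h6
      _ = y i * ((∏ j ∈ X1, (1 - y j)) * μ.real (Av E X2)) := by ring
      _ ≤ y i * μ.real (Av E X) := mul_le_mul_of_nonneg_left h3 (hy0 i)

open Classical in
theorem wlll0 (hmix : St_MIX) {V J : Type} [Fintype V] [Fintype J] (ν : V → Measure ℝ)
    [∀ v, IsProbabilityMeasure (ν v)] (E : J → Set (V → ℝ)) (S : J → Finset V)
    (hE : ∀ i, MeasurableSet (E i)) (hdep : ∀ i, Dep (E i) (S i))
    (y : J → ℝ) (hy0 : ∀ i, 0 ≤ y i) (hy1 : ∀ i, y i ≤ 1 / 2)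
    (hP : ∀ i, (Measure.pi ν).real (E i) ≤
      y i * ∏ j ∈ Finset.univ.filter (fun j => ¬ Disjoint (S i) (S j)), (1 - y j)) :
    ∃ x, ∀ i, x ∉ E i := by
  have hk := fun X : Finset J => wkey hmix ν E S hE hdep y hy0 hy1 hP X.card X rfl
  have hpos : ∀ X : Finset J, 0 < (Measure.pi ν).real (Av E X) := by
    intro X
    induction X using Finset.induction_on with
    | empty =>
      have : Av E (∅ : Finset J) = Set.univ := by
        ext x; simp [Av]
      rw [this, probReal_univ]
      exact one_pos
    | insert i X _ ih =>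
      have hsub : Av E X ⊆ Av E (insert i X) ∪ (E i ∩ Av E X) := by
        intro x hx
        by_cases hxi : x ∈ E i
        · exact Or.inr ⟨hxi, hx⟩
        · left
          intro j hj
          rw [Finset.mem_insert] at hj
          rcases hj with rfl | hj
          · exact hxi
          · exact hx j hj
      have h1 : (Measure.pi ν).real (Av E X) ≤ (Measure.pi ν).real (Av E (insert i X)) +
          (Measure.pi ν).real (E i ∩ Av E X) :=
        (measureReal_mono hsub).trans (measureReal_union_le _ _)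
      have h2 := hk X i
      have h3 := hy1 i
      nlinarith
  have h := hpos Finset.univ
  have hne : (Av E Finset.univ).Nonempty := by
    by_contra hcon
    rw [Set.not_nonempty_iff_eq_empty] at hcon
    rw [hcon, measureReal_empty] at h
    exact lt_irrefl _ h
  obtain ⟨x, hx⟩ := hne
  exact ⟨x, fun i => hx i (Finset.mem_univ i)⟩

theorem one_sub_ge_exp (y : ℝ) (h0 : 0 ≤ y) (h1 : y ≤ 1 / 2) : Real.exp (-(2 * y)) ≤ 1 - y := by
  have h2 := Real.add_one_le_exp (2 * y)
  rw [Real.exp_neg]
  have h3 : (Real.exp (2 * y))⁻¹ ≤ (2 * y + 1)⁻¹ := inv_anti₀ (by linarith) h2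
  refine h3.trans ?_
  rw [inv_le_iff_one_le_mul₀ (by linarith)]
  nlinarith

open Classical in
/-- Weighted local lemma: `X` bounds the total weight of the events touching a coordinate. -/
theorem wlll (hmix : St_MIX) {V J : Type} [Fintype V] [Fintype J] (ν : V → Measure ℝ)
    [∀ v, IsProbabilityMeasure (ν v)] (E : J → Set (V → ℝ)) (S : J → Finset V)
    (hE : ∀ i, MeasurableSet (E i)) (hdep : ∀ i, Dep (E i) (S i))
    (y : J → ℝ) (hy0 : ∀ i, 0 ≤ y i) (hy1 : ∀ i, y i ≤ 1 / 2) (X : ℝ)
    (hX : ∀ u, ∑ j ∈ Finset.univ.filter (fun j => u ∈ S j), y j ≤ X)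
    (hP : ∀ i, (Measure.pi ν).real (E i) ≤ y i * Real.exp (-(2 * (X * ((S i).card : ℝ))))) :
    ∃ x, ∀ i, x ∉ E i := by
  refine wlll0 hmix ν E S hE hdep y hy0 hy1 (fun i => (hP i).trans ?_)
  refine mul_le_mul_of_nonneg_left ?_ (hy0 i)
  set T := Finset.univ.filter (fun j => ¬ Disjoint (S i) (S j)) with hT
  have h1 : ∑ j ∈ T, y j ≤ X * ((S i).card : ℝ) := by
    calc ∑ j ∈ T, y j ≤ ∑ j ∈ T, ∑ u ∈ S i, (if u ∈ S j then y j else 0) := by
          refine Finset.sum_le_sum fun j hj => ?_
          have hj2 := (Finset.mem_filter.1 hj).2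
          rw [Finset.not_disjoint_iff] at hj2
          obtain ⟨u, hu1, hu2⟩ := hj2
          have h3 := Finset.single_le_sum (f := fun u => if u ∈ S j then y j else 0)
            (s := S i) (fun u _ => by
              show 0 ≤ (if u ∈ S j then y j else 0)
              split_ifs
              · exact hy0 j
              · exact le_rfl) hu1
          simp only [hu2, if_true] at h3
          exact h3
      _ ≤ ∑ j, ∑ u ∈ S i, (if u ∈ S j then y j else 0) := by
          refine Finset.sum_le_univ_sum_of_nonneg fun j => Finset.sum_nonneg fun u _ => ?_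
          split_ifs
          · exact hy0 j
          · exact le_rfl
      _ = ∑ u ∈ S i, ∑ j, (if u ∈ S j then y j else 0) := Finset.sum_comm
      _ = ∑ u ∈ S i, ∑ j ∈ Finset.univ.filter (fun j => u ∈ S j), y j := by
          refine Finset.sum_congr rfl fun u _ => ?_
          rw [Finset.sum_filter]
      _ ≤ ∑ _u ∈ S i, X := Finset.sum_le_sum fun u _ => hX u
      _ = X * ((S i).card : ℝ) := by rw [Finset.sum_const, nsmul_eq_mul, mul_comm]
  calc Real.exp (-(2 * (X * ((S i).card : ℝ)))) ≤ Real.exp (∑ j ∈ T, (-(2 * y j))) := by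
        rw [Real.exp_le_exp, Finset.sum_neg_distrib, ← Finset.mul_sum]
        linarith
    _ = ∏ j ∈ T, Real.exp (-(2 * y j)) := Real.exp_sum _ _
    _ ≤ ∏ j ∈ T, (1 - y j) :=
        Finset.prod_le_prod (fun j _ => (Real.exp_pos _).le)
          (fun j _ => one_sub_ge_exp _ (hy0 j) (hy1 j))

end Pool.Agent.Q271.LD2
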