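import Pool.Agent.H320R2.LD.PHASE
import Pool.Agent.H320R2.LD.DEP
import Pool.Agent.H320R2.LD.MOM
import Pool.Agent.Q271.LD2.WLLL

set_option autoImplicit false

/-!
# Concentration for light rows
-/

open MeasureTheory ProbabilityTheory

namespace Pool.Agent.Q271.LD2

open Pool.Agent.H320R2.LD Pool.Agent.H320R2.LD.PHASE

/-- two-sided tail of an odd Lipschitz function -/
theorem tail2 (hCONC : St_CONC) (hMOM : St_MOM) {V : Type} [Fintype V] (f : (V → ℝ) → ℝ) (L : ℝ)
    (hL : 0 < L) (hf : Lip L f) (hodd : ∀ x, f (-x) = - f x) (u : ℝ) (hu : 0 ≤ u) :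
    (gam V).real {g | u ≤ |f g|} ≤ 2 * Real.exp (-u ^ 2 / (4 * L ^ 2)) := by
  obtain ⟨C8, -, h8⟩ := hMOM
  have h0 : ∫ x, f x ∂(gam V) = 0 := (h8 V f L hL hf hodd).1
  have hneg : Lip L (fun x => - f x) := by
    intro x y
    have := hf y x
    have h2 : nrm (y - x) = nrm (x - y) := by
      unfold nrm nsq
      congr 1
      refine Finset.sum_congr rfl fun v _ => ?_
      simp only [Pi.sub_apply]
      ring
    rw [h2] at this
    calc |(-f x) - (-f y)| = |f y - f x| := by congr 1; ring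
      _ ≤ _ := this
  have h1 := hCONC V f L hL hf u hu
  have h2 := hCONC V (fun x => - f x) L hL hneg u hu
  rw [integral_neg, h0] at h2
  rw [h0] at h1
  have hsub : {g | u ≤ |f g|} ⊆ {x | (0:ℝ) + u ≤ f x} ∪ {x | -0 + u ≤ - f x} := by
    intro g hg
    have hg' : u ≤ |f g| := hg
    rcases le_abs.1 hg' with h | h
    · left
      show (0:ℝ) + u ≤ f g
      linarith
    · right
      show (-0:ℝ) + u ≤ - f g
      linarith
  refine (measureReal_mono hsub).trans ((measureReal_union_le _ _).trans ?_)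
  linarith

section
variable {V W : Type} [Fintype V] [Fintype W] [DecidableEq V]
variable {z : (V → ℝ) → (V → ℝ)} {M : ℝ}

theorem XX_odd (hodd : ∀ y, z (-y) = - z y) (B : Finset V) (v : V) (g : V → ℝ) :
    XX z M B v (-g) = - XX z M B v g := by
  unfold XX
  have hmp := MOM.neg_preserving V
  have h2 : ∫ x, z (M • mix B (-g) (-x)) v ∂(gam V) = ∫ x, z (M • mix B (-g) x) v ∂(gam V) :=
    hmp.integral_comp (Homeomorph.neg (V → ℝ)).measurableEmbedding
      (fun x => z (M • mix B (-g) x) v)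
  rw [← h2, ← integral_neg]
  congr 1
  funext x
  have h3 : mix B (-g) (-x) = - mix B g x := by
    funext u
    simp only [mix, Pi.neg_apply]
    split_ifs <;> rfl
  rw [h3, smul_neg, hodd]
  rfl

theorem XX_loc_lip (hM : 0 < M) (hz : ∀ v y y', |z y' v - z y v| ≤ nrm (y' - y))
    (hb : ∀ y v, |z y v| ≤ 1) (B : Finset V) (v : V) (x y : V → ℝ) :
    |XX z M B v x - XX z M B v y| ≤ M * Real.sqrt (∑ u ∈ B, (x u - y u) ^ 2) := by
  have h1 : XX z M B v x = XX z M B v (mix B x y) := by
    refine XX_dep B v x _ fun u hu => ?_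
    simp [mix, hu]
  rw [h1]
  refine (XX_lip hM hz hb B v (mix B x y) y).trans (le_of_eq ?_)
  unfold nrm nsq
  congr 2
  rw [← Finset.sum_filter_add_sum_filter_not Finset.univ (fun u => u ∈ B)]
  have e1 : ∑ u ∈ Finset.univ.filter (fun u => u ∈ B), ((mix B x y - y) u) ^ 2 =
      ∑ u ∈ B, (x u - y u) ^ 2 := by
    have : Finset.univ.filter (fun u => u ∈ B) = B := by ext u; simp
    rw [this]
    refine Finset.sum_congr rfl fun u hu => ?_
    simp [mix, hu]
  have e2 : ∑ u ∈ Finset.univ.filter (fun u => ¬ u ∈ B), ((mix B x y - y) u) ^ 2 = 0 := by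
    refine Finset.sum_eq_zero fun u hu => ?_
    have hu' : u ∉ B := (Finset.mem_filter.1 hu).2
    simp [mix, hu']
  rw [e1, e2, add_zero]

open Classical in
theorem ball_symm (I : W → V → Prop) (n : ℕ) (u v : V) (h : u ∈ ball I n v) : v ∈ ball I n u := by
  unfold ball at h ⊢
  rw [Finset.mem_filter] at h ⊢
  obtain ⟨-, l, hl, hc⟩ := h
  exact ⟨Finset.mem_univ _, l.reverse, by rwa [List.length_reverse], DEP.symm hc⟩

open Classical in
/-- joint Lipschitz bound for the local approximations -/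
theorem XX_sum_lip (hM : 0 < M) (hz : ∀ v y y', |z y' v - z y v| ≤ nrm (y' - y))
    (hb : ∀ y v, |z y v| ≤ 1) (I : W → V → Prop) (n : ℕ) (Bs : ℝ)
    (hBs : ∀ v, ((ball I n v).card : ℝ) ≤ Bs) (c : V → ℝ) (ν : ℝ) (hν : 0 ≤ ν)
    (hc : ∑ v, c v ^ 2 ≤ ν) :
    Lip (M * Real.sqrt (ν * Bs)) (fun g => ∑ v, c v * XX z M (ball I n v) v g) := by
  intro x y
  have hBs0 : ∀ v : V, 0 ≤ Bs := fun v => (Nat.cast_nonneg _).trans (hBs v)
  set T : V → ℝ := fun v => Real.sqrt (∑ u ∈ ball I n v, (x u - y u) ^ 2) with hT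
  have h1 : |∑ v, c v * XX z M (ball I n v) v x - ∑ v, c v * XX z M (ball I n v) v y| ≤
      ∑ v, |c v| * (M * T v) := by
    rw [← Finset.sum_sub_distrib]
    refine (Finset.abs_sum_le_sum_abs _ _).trans (Finset.sum_le_sum fun v _ => ?_)
    rw [← mul_sub, abs_mul]
    exact mul_le_mul_of_nonneg_left (XX_loc_lip hM hz hb _ v x y) (abs_nonneg _)
  have h2 : ∑ v, |c v| * (M * T v) = M * ∑ v, |c v| * T v := by
    rw [Finset.mul_sum]
    exact Finset.sum_congr rfl fun v _ => by ring
  have h3 : ∑ v, |c v| * T v ≤ Real.sqrt ν * nrm T := by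
    refine (le_abs_self _).trans (abs_sum_mul_le (fun v => |c v|) T (Real.sqrt ν)
      (Real.sqrt_nonneg _) ?_)
    rw [Real.sq_sqrt hν]
    simpa using hc
  have h4 : nsq T ≤ Bs * nsq (x - y) := by
    unfold nsq
    have e1 : ∀ v, T v ^ 2 = ∑ u, (if u ∈ ball I n v then (x u - y u) ^ 2 else 0) := by
      intro v
      rw [hT]
      simp only
      rw [Real.sq_sqrt (Finset.sum_nonneg fun u _ => sq_nonneg _), ← Finset.sum_filter]
      congr 1
      ext u
      simp
    simp_rw [e1]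
    rw [Finset.sum_comm, Finset.mul_sum]
    refine Finset.sum_le_sum fun u _ => ?_
    rw [← Finset.sum_filter, Finset.sum_const, nsmul_eq_mul]
    refine mul_le_mul_of_nonneg_right ?_ (sq_nonneg _)
    refine le_trans ?_ (hBs u)
    have : (Finset.univ.filter (fun v => u ∈ ball I n v)).card ≤ (ball I n u).card := by
      refine Finset.card_le_card fun v hv => ?_
      exact ball_symm I n u v (Finset.mem_filter.1 hv).2
    exact_mod_cast this
  have h5 : nrm T ≤ Real.sqrt Bs * nrm (x - y) := by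
    by_cases hV : Nonempty V
    · obtain ⟨v0⟩ := hV
      unfold nrm
      rw [← Real.sqrt_mul (hBs0 v0)]
      exact Real.sqrt_le_sqrt h4
    · have : IsEmpty V := not_nonempty_iff.1 hV
      unfold nrm nsq
      simp
  calc |∑ v, c v * XX z M (ball I n v) v x - ∑ v, c v * XX z M (ball I n v) v y|
      ≤ M * ∑ v, |c v| * T v := by rw [← h2]; exact h1
    _ ≤ M * (Real.sqrt ν * (Real.sqrt Bs * nrm (x - y))) := by
        refine mul_le_mul_of_nonneg_left (h3.trans ?_) hM.le
        exact mul_le_mul_of_nonneg_left h5 (Real.sqrt_nonneg _)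
    _ = M * Real.sqrt (ν * Bs) * nrm (x - y) := by
        rw [Real.sqrt_mul hν]; ring

end

end Pool.Agent.Q271.LD2
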