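import Pool.Agent.Q271.LD2.Params

set_option autoImplicit false

/-!
# Numerical inequalities for one phase, continued
-/

open Filter

namespace Pool.Agent.Q271.LD2

open Pool.Agent.H320R2.LD.PARAM

theorem param2 {t : ℝ} (h : Big t) (s : ℝ) (hs1 : t ^ (-(1/100) : ℝ) ≤ s) (D m : ℕ)
    (hD : D = ⌊t ^ (39/20 : ℝ)⌋₊) (hm : m = ⌈5 * t ^ (9/10 : ℝ) * Real.log t⌉₊) :
    1 ≤ m ∧ t ^ (-(1/4) : ℝ) ≤ 1/1000 ∧ t ^ (-(1/4) : ℝ) ≤ (t ^ (1/16 : ℝ))⁻¹ ∧
    t ^ (-(9/10) : ℝ) ≤ 1 ∧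
    8 * (t ^ (-(9/10) : ℝ)) ^ 2 * (t ^ (1/16 : ℝ)) ^ 4 * (t ^ (3/2 : ℝ) / s) ≤ 1 ∧
    (2 * (D : ℝ) ^ 2) ^ (4 * m) * Real.exp (-(m : ℝ) * (t ^ (1/16 : ℝ)) ^ 2 / (4 * 400 ^ 2))
      ≤ (Real.exp (-t)) ^ 2 ∧
    1 / (2 * t) + 2 * Real.exp (-t) ≤ 1 / t ∧
    Real.sqrt D / t ≤ 1 ∧
    2 * Real.exp (-t) + 2 * Real.exp (-((1 / (2 * t)) ^ 2 *
      Real.exp (4 * t ^ (-(9/10) : ℝ) * m) / (16 * 400 ^ 2))) ≤ 4 * Real.exp (-t) ∧
    (((D ^ 2 + 1) ^ (4 * m) : ℕ) : ℝ) ≤ Real.exp (T1 t) ∧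
    Real.exp (T1 t) * (D * Real.exp (-T3 t) + 4 * t ^ (39/20 : ℝ) * Real.exp (-T3 t)) ≤
      Real.exp (-T2 t) ∧
    Real.exp (-(1 / 10 ^ 12 * (s * t))) + 2 * Real.exp (-(((t ^ (-(1/4) : ℝ))⁻¹) ^ 4 / 400 ^ 2)) +
      D * (2 * Real.exp (-t) + 2 * Real.exp (-((1 / (2 * t)) ^ 2 *
      Real.exp (4 * t ^ (-(9/10) : ℝ) * m) / (16 * 400 ^ 2)))) ≤
      Real.exp (-T3 t) * Real.exp (-(2 * (Real.exp (-T2 t) * (D * Real.exp (T1 t))))) := by
  have c1 := h.T1big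
  have c2 := h.c21
  have c3 := h.c32
  have c4 := h.c43
  have c5 := h.ct4
  have cL := h.L_le
  have ht0 := h.pos
  have ht1 := h.one
  have hLsq := h.Lsq
  have hL1 := h.L1
  have hexpL := h.expL
  have hT1p := h.T1pos
  have hpow39 := h.pow39
  have hT3p := h.T3pos
  have hrho := h.rho
  obtain ⟨h1, h3, h3', h5, h6, h7, h8⟩ := h
  set L := Real.log t with hL
  have hDle : (D : ℝ) ≤ t ^ (39/20 : ℝ) := by
    rw [hD]; exact Nat.floor_le (by positivity)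
  have hDexp : (D : ℝ) ≤ Real.exp (2 * L) := hDle.trans hpow39
  have hDsq : (D : ℝ) ^ 2 ≤ Real.exp (4 * L) := by
    calc (D : ℝ) ^ 2 ≤ (Real.exp (2 * L)) ^ 2 := pow_le_pow_left₀ (by positivity) hDexp 2
      _ = Real.exp (4 * L) := by rw [← Real.exp_nat_mul]; congr 1; push_cast; ring
  have h2e : (2:ℝ) ≤ Real.exp L := by rw [hexpL]; linarith [show (2:ℝ) ≤ 10 ^ 12 by norm_num]
  -- m
  set A := t ^ (9/10 : ℝ) with hA
  have hA1 : 1 ≤ A := Real.one_le_rpow ht1 (by norm_num)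
  have hm1 : 5 * A * L ≤ m := by rw [hm]; exact Nat.le_ceil _
  have hm2 : (m : ℝ) ≤ 6 * A * L := by
    have : (m : ℝ) < 5 * A * L + 1 := by rw [hm]; exact Nat.ceil_lt_add_one (by positivity)
    nlinarith [mul_le_mul hA1 hL1 zero_le_one (by linarith)]
  have hmpos : (1 : ℝ) ≤ m := by nlinarith [mul_le_mul hA1 hL1 zero_le_one (by linarith)]
  have hm1n : 1 ≤ m := by exact_mod_cast hmpos
  -- powers
  have h25 : t ^ (-(1/4) : ℝ) = (t ^ (1/4 : ℝ))⁻¹ := by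
    rw [Real.rpow_neg ht0.le]
  have h14 : 1000 ≤ t ^ (1/4 : ℝ) := by
    calc (1000 : ℝ) = ((10:ℝ) ^ 12) ^ (1/4 : ℝ) := by
          rw [← Real.rpow_natCast, ← Real.rpow_mul (by norm_num)]
          rw [show (((12 : ℕ) : ℝ) * (1/4)) = ((3 : ℕ) : ℝ) by norm_num, Real.rpow_natCast]
          norm_num
      _ ≤ t ^ (1/4 : ℝ) := Real.rpow_le_rpow (by norm_num) h1 (by norm_num)
  have h1164 : (t ^ (1/16 : ℝ)) ^ 4 = t ^ (1/4 : ℝ) := by
    rw [← Real.rpow_natCast, ← Real.rpow_mul ht0.le]; norm_num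
  have h1162 : (t ^ (1/16 : ℝ)) ^ 2 = t ^ (1/8 : ℝ) := by
    rw [← Real.rpow_natCast, ← Real.rpow_mul ht0.le]; norm_num
  have hs0 : 0 < s := lt_of_lt_of_le (by positivity) hs1
  have hst : t ^ (99/100 : ℝ) ≤ s * t := by
    have : t ^ (99/100 : ℝ) = t ^ (-(1/100) : ℝ) * t := by
      nth_rewrite 3 [← Real.rpow_one t]
      rw [← Real.rpow_add ht0]; norm_num
    rw [this]
    exact mul_le_mul_of_nonneg_right hs1 ht0.le
  have hinvs : 1 / s ≤ t ^ (1/100 : ℝ) := by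
    rw [div_le_iff₀ hs0]
    have : t ^ (1/100 : ℝ) * t ^ (-(1/100) : ℝ) = 1 := by
      rw [← Real.rpow_add ht0]; norm_num
    calc (1:ℝ) = t ^ (1/100 : ℝ) * t ^ (-(1/100) : ℝ) := this.symm
      _ ≤ t ^ (1/100 : ℝ) * s := mul_le_mul_of_nonneg_left hs1 (by positivity)
  have hU : (10:ℝ) ^ 15 * T4 t ≤ t ^ (99/100 : ℝ) := by
    calc (10:ℝ) ^ 15 * T4 t ≤ t ^ (1/100 : ℝ) * T4 t :=
          mul_le_mul_of_nonneg_right hrho (by unfold T4; positivity)
      _ = t ^ (95/100 : ℝ) := by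
          unfold T4
          rw [← Real.rpow_add ht0]; norm_num
      _ ≤ t ^ (99/100 : ℝ) := Real.rpow_le_rpow_of_exponent_le ht1 (by norm_num)
  -- the error in the local approximation
  have t4 : Real.exp (-((1 / (2 * t)) ^ 2 * Real.exp (4 * t ^ (-(9/10) : ℝ) * m) / (16 * 400 ^ 2)))
      ≤ Real.exp (-t) := by
    apply Real.exp_le_exp.mpr
    have f0 : t ^ (-(9/10) : ℝ) * A = 1 := by
      rw [hA, ← Real.rpow_add ht0]; norm_num
    have f1 : 20 * L ≤ 4 * t ^ (-(9/10) : ℝ) * m := by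
      calc 20 * L = 4 * (t ^ (-(9/10) : ℝ) * A) * (5 * L) := by rw [f0]; ring
        _ = 4 * t ^ (-(9/10) : ℝ) * (5 * A * L) := by ring
        _ ≤ 4 * t ^ (-(9/10) : ℝ) * m := mul_le_mul_of_nonneg_left hm1 (by positivity)
    have f2 : t ^ 20 ≤ Real.exp (4 * t ^ (-(9/10) : ℝ) * m) := by
      have : t ^ 20 = Real.exp (20 * L) := by
        rw [hL, show (20:ℝ) * Real.log t = ((20 : ℕ) : ℝ) * Real.log t by norm_num,
          ← Real.log_pow, Real.exp_log (by positivity)]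
      rw [this]; exact Real.exp_le_exp.mpr f1
    have f3 : t ≤ (1 / (2 * t)) ^ 2 * t ^ 20 / (16 * 400 ^ 2) := by
      rw [le_div_iff₀ (by positivity)]
      have g1 : (1 / (2 * t)) ^ 2 * t ^ 20 = t ^ 18 / 4 := by field_simp; ring
      rw [g1]
      have g2 : t * (64 * 400 ^ 2) ≤ t * t := mul_le_mul_of_nonneg_left (by linarith) ht0.le
      have g3 : t * t ≤ t ^ 18 := by
        calc t * t = t ^ 2 := by ring
          _ ≤ t ^ 18 := pow_le_pow_right₀ ht1 (by norm_num)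
      linarith
    have f4 : (1 / (2 * t)) ^ 2 * t ^ 20 / (16 * 400 ^ 2)
        ≤ (1 / (2 * t)) ^ 2 * Real.exp (4 * t ^ (-(9/10) : ℝ) * m) / (16 * 400 ^ 2) := by
      apply div_le_div_of_nonneg_right _ (by positivity)
      exact mul_le_mul_of_nonneg_left f2 (by positivity)
    linarith
  have hδ1 : 2 * Real.exp (-t) + 2 * Real.exp (-((1 / (2 * t)) ^ 2 *
      Real.exp (4 * t ^ (-(9/10) : ℝ) * m) / (16 * 400 ^ 2))) ≤ 4 * Real.exp (-t) := by
    linarith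
  refine ⟨hm1n, ?_, ?_, ?_, ?_, ?_, ?_, ?_, hδ1, ?_, ?_, ?_⟩
  · rw [h25]
    rw [show (1/1000 : ℝ) = (1000 : ℝ)⁻¹ by norm_num]
    exact inv_anti₀ (by norm_num) h14
  · rw [← Real.rpow_neg ht0.le]
    exact Real.rpow_le_rpow_of_exponent_le ht1 (by norm_num)
  · exact Real.rpow_le_one_of_one_le_of_nonpos ht1 (by norm_num)
  · rw [h1164]
    have e1 : t ^ (3/2 : ℝ) / s ≤ t ^ (3/2 : ℝ) * t ^ (1/100 : ℝ) := by
      rw [div_eq_mul_one_div]
      exact mul_le_mul_of_nonneg_left hinvs (by positivity)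
    have e2 : 8 * (t ^ (-(9/10) : ℝ)) ^ 2 * t ^ (1/4 : ℝ) * (t ^ (3/2 : ℝ) / s)
        ≤ 8 * (t ^ (-(9/10) : ℝ)) ^ 2 * t ^ (1/4 : ℝ) * (t ^ (3/2 : ℝ) * t ^ (1/100 : ℝ)) :=
      mul_le_mul_of_nonneg_left e1 (by positivity)
    refine e2.trans ?_
    have e3 : (t ^ (-(9/10) : ℝ)) ^ 2 = t ^ (-(9/5) : ℝ) := by
      rw [← Real.rpow_natCast, ← Real.rpow_mul ht0.le]; norm_num
    rw [e3]
    have e4 : 8 * t ^ (-(9/5) : ℝ) * t ^ (1/4 : ℝ) * (t ^ (3/2 : ℝ) * t ^ (1/100 : ℝ))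
        = 8 * t ^ (-(1/25) : ℝ) := by
      rw [← Real.rpow_add ht0, mul_assoc, mul_assoc, ← Real.rpow_add ht0, ← Real.rpow_add ht0]
      norm_num
    rw [e4, Real.rpow_neg ht0.le]
    have hp : 0 < t ^ (1/25 : ℝ) := by positivity
    rw [← div_eq_mul_inv, div_le_one hp]
    exact h8
  · rw [h1162]
    have e1 : (2 * (D : ℝ) ^ 2) ≤ Real.exp (5 * L) := by
      calc 2 * (D : ℝ) ^ 2 ≤ Real.exp L * Real.exp (4 * L) :=
            mul_le_mul h2e hDsq (by positivity) (Real.exp_pos _).le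
        _ = Real.exp (5 * L) := by rw [← Real.exp_add]; ring_nf
    have e2 : (2 * (D : ℝ) ^ 2) ^ (4 * m) ≤ Real.exp (20 * m * L) := by
      calc (2 * (D : ℝ) ^ 2) ^ (4 * m) ≤ (Real.exp (5 * L)) ^ (4 * m) :=
            pow_le_pow_left₀ (by positivity) e1 _
        _ = Real.exp (20 * m * L) := by
            rw [← Real.exp_nat_mul]; push_cast; ring_nf
    have e3 : (2 * (D : ℝ) ^ 2) ^ (4 * m) * Real.exp (-(m : ℝ) * t ^ (1/8 : ℝ) / (4 * 400 ^ 2))
        ≤ Real.exp (20 * m * L) * Real.exp (-(m : ℝ) * t ^ (1/8 : ℝ) / (4 * 400 ^ 2)) :=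
      mul_le_mul_of_nonneg_right e2 (Real.exp_pos _).le
    refine e3.trans ?_
    rw [← Real.exp_add, ← Real.exp_nat_mul]
    apply Real.exp_le_exp.mpr
    have e4 : 20 * L ≤ t ^ (1/8 : ℝ) / (8 * 400 ^ 2) := by
      rw [le_div_iff₀ (by positivity)]
      nlinarith
    have e5 : 2 * t ≤ m * (t ^ (1/8 : ℝ) / (8 * 400 ^ 2)) := by
      have f1 : A ≤ m := by nlinarith [mul_le_mul_of_nonneg_left hL1 (by linarith : (0:ℝ) ≤ A)]
      have f2 : A * t ^ (1/8 : ℝ) = t * t ^ (1/40 : ℝ) := by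
        nth_rewrite 2 [← Real.rpow_one t]
        rw [hA, ← Real.rpow_add ht0, ← Real.rpow_add ht0]; norm_num
      have f3 : t * t ^ (1/40 : ℝ) ≤ m * t ^ (1/8 : ℝ) := by
        rw [← f2]; exact mul_le_mul_of_nonneg_right f1 (by positivity)
      have f4 : t * (16 * 160000) ≤ t * t ^ (1/40 : ℝ) := mul_le_mul_of_nonneg_left h6 ht0.le
      rw [← mul_div_assoc, le_div_iff₀ (by positivity)]
      nlinarith
    have e6 : -(m : ℝ) * t ^ (1/8 : ℝ) / (4 * 400 ^ 2) =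
        -2 * (m * (t ^ (1/8 : ℝ) / (8 * 400 ^ 2))) := by
      field_simp
      ring
    rw [e6]
    have e7 : 20 * (m:ℝ) * L ≤ m * (t ^ (1/8 : ℝ) / (8 * 400 ^ 2)) := by
      calc 20 * (m:ℝ) * L = m * (20 * L) := by ring
        _ ≤ _ := mul_le_mul_of_nonneg_left e4 (by linarith)
    push_cast
    linarith
  · have e1 : 4 * t ≤ Real.exp t := by
      have : Real.exp t = Real.exp (t / 2) * Real.exp (t / 2) := by
        rw [← Real.exp_add]; ring_nf
      rw [this]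
      have f := Real.add_one_le_exp (t / 2)
      have f2 : (t/2 + 1) * (t/2 + 1) ≤ Real.exp (t / 2) * Real.exp (t / 2) :=
        mul_le_mul f f (by linarith) (Real.exp_pos _).le
      have h12 : (12:ℝ) ≤ t := by linarith [show (12:ℝ) ≤ 10 ^ 12 by norm_num]
      have h12' : t * 12 ≤ t * t := mul_le_mul_of_nonneg_left h12 ht0.le
      have f3 : (t/2 + 1) * (t/2 + 1) = t * t / 4 + t + 1 := by ring
      linarith
    have e2 : 2 * Real.exp (-t) ≤ 1 / (2 * t) := by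
      rw [Real.exp_neg, le_div_iff₀ (by positivity)]
      rw [show 2 * (Real.exp t)⁻¹ * (2 * t) = (4 * t) / Real.exp t by field_simp; ring]
      rw [div_le_one (Real.exp_pos _)]
      exact e1
    have e3 : 1 / t = 1 / (2 * t) + 1 / (2 * t) := by field_simp; ring
    rw [e3]; linarith
  · rw [div_le_one ht0]
    rw [Real.sqrt_le_left ht0.le]
    calc (D:ℝ) ≤ t ^ (39/20 : ℝ) := hDle
      _ ≤ t ^ (2 : ℝ) := Real.rpow_le_rpow_of_exponent_le ht1 (by norm_num)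
      _ = t ^ 2 := by norm_num
  · -- ball size
    have g1 : ((D : ℝ) ^ 2 + 1) ≤ Real.exp (5 * L) := by
      have h3e : 1 ≤ Real.exp (4 * L) := Real.one_le_exp (by positivity)
      calc (D : ℝ) ^ 2 + 1 ≤ Real.exp (4 * L) + Real.exp (4 * L) := by linarith
        _ = 2 * Real.exp (4 * L) := by ring
        _ ≤ Real.exp L * Real.exp (4 * L) := mul_le_mul_of_nonneg_right h2e (Real.exp_pos _).le
        _ = Real.exp (5 * L) := by rw [← Real.exp_add]; ring_nf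
    push_cast
    calc ((D : ℝ) ^ 2 + 1) ^ (4 * m) ≤ (Real.exp (5 * L)) ^ (4 * m) :=
          pow_le_pow_left₀ (by positivity) g1 _
      _ = Real.exp (20 * m * L) := by
          rw [← Real.exp_nat_mul]; push_cast; ring_nf
      _ ≤ Real.exp (T1 t) := by
          apply Real.exp_le_exp.mpr
          have k2 : 20 * m * L ≤ 120 * A * L ^ 2 := by nlinarith
          have k3 : 120 * A * L ^ 2 ≤ A * t ^ (1/100 : ℝ) := by
            have : A * (120 * L ^ 2) ≤ A * t ^ (1/100 : ℝ) := by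
              refine mul_le_mul_of_nonneg_left ?_ (by linarith)
              nlinarith
            linarith
          have k4 : A * t ^ (1/100 : ℝ) = T1 t := by
            unfold T1
            rw [hA, ← Real.rpow_add ht0]; norm_num
          linarith
  · -- weights
    have e5 : (5:ℝ) ≤ Real.exp 4 := by linarith [Real.add_one_le_exp (4:ℝ)]
    calc Real.exp (T1 t) * (D * Real.exp (-T3 t) + 4 * t ^ (39/20 : ℝ) * Real.exp (-T3 t))
        ≤ Real.exp (T1 t) * (Real.exp (2 * L) * Real.exp (-T3 t) +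
            4 * Real.exp (2 * L) * Real.exp (-T3 t)) := by gcongr
      _ = 5 * (Real.exp (T1 t) * (Real.exp (2 * L) * Real.exp (-T3 t))) := by ring
      _ ≤ Real.exp 4 * (Real.exp (T1 t) * (Real.exp (2 * L) * Real.exp (-T3 t))) :=
          mul_le_mul_of_nonneg_right e5 (by positivity)
      _ = Real.exp (4 + (T1 t + (2 * L + (-T3 t)))) := by
          rw [← Real.exp_add, ← Real.exp_add, ← Real.exp_add]
      _ ≤ Real.exp (-T2 t) := by
          rw [Real.exp_le_exp]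
          linarith [show (4:ℝ) ≤ 10 ^ 15 by norm_num]
  · -- heavy rows
    have e0 : ((t ^ (-(1/4) : ℝ))⁻¹) ^ 4 = t := by
      rw [h25, inv_inv, ← Real.rpow_natCast, ← Real.rpow_mul ht0.le]; norm_num
    rw [e0]
    have hT4 : T3 t + 10 ≤ T4 t := by
      nlinarith [show (10:ℝ) ≤ 10 ^ 15 by norm_num]
    have a1 : Real.exp (-(1 / 10 ^ 12 * (s * t))) ≤ Real.exp (-(T3 t + 10)) := by
      rw [Real.exp_le_exp]
      have : 1 / 10 ^ 12 * ((10:ℝ) ^ 15 * T4 t) ≤ 1 / 10 ^ 12 * (s * t) :=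
        mul_le_mul_of_nonneg_left (hU.trans hst) (by norm_num)
      have h9 : 1 / 10 ^ 12 * ((10:ℝ) ^ 15 * T4 t) = 1000 * T4 t := by ring
      linarith
    have a2 : Real.exp (-(t / 400 ^ 2)) ≤ Real.exp (-(T3 t + 10)) := by
      rw [Real.exp_le_exp]
      have : (10:ℝ) ^ 15 * T4 t / 400 ^ 2 ≤ t / 400 ^ 2 :=
        div_le_div_of_nonneg_right c5 (by norm_num)
      have h9 : (10:ℝ) ^ 15 * T4 t / 400 ^ 2 = 6250000000 * T4 t := by ring
      linarith
    have a3 : (D:ℝ) * (2 * Real.exp (-t) + 2 * Real.exp (-((1 / (2 * t)) ^ 2 *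
      Real.exp (4 * t ^ (-(9/10) : ℝ) * m) / (16 * 400 ^ 2)))) ≤ 4 * Real.exp (-(T3 t + 10)) := by
      calc (D:ℝ) * (2 * Real.exp (-t) + 2 * Real.exp (-((1 / (2 * t)) ^ 2 *
            Real.exp (4 * t ^ (-(9/10) : ℝ) * m) / (16 * 400 ^ 2))))
          ≤ Real.exp (2 * L) * (4 * Real.exp (-t)) :=
            mul_le_mul hDexp hδ1 (by positivity) (Real.exp_pos _).le
        _ = 4 * Real.exp (2 * L + -t) := by rw [Real.exp_add]; ring
        _ ≤ 4 * Real.exp (-(T3 t + 10)) := by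
            refine mul_le_mul_of_nonneg_left ?_ (by norm_num)
            rw [Real.exp_le_exp]
            nlinarith
    have a4 : 7 * Real.exp (-(T3 t + 10)) ≤ Real.exp (-T3 t) * Real.exp (-2) := by
      have e8 : (7:ℝ) ≤ Real.exp 8 := by linarith [Real.add_one_le_exp (8:ℝ)]
      calc 7 * Real.exp (-(T3 t + 10)) ≤ Real.exp 8 * Real.exp (-(T3 t + 10)) :=
            mul_le_mul_of_nonneg_right e8 (Real.exp_pos _).le
        _ = Real.exp (-T3 t) * Real.exp (-2) := by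
            rw [← Real.exp_add, ← Real.exp_add]; congr 1; ring
    have a5 : Real.exp (-T2 t) * (D * Real.exp (T1 t)) ≤ 1 := by
      calc Real.exp (-T2 t) * (D * Real.exp (T1 t))
          ≤ Real.exp (-T2 t) * (Real.exp (2 * L) * Real.exp (T1 t)) := by gcongr
        _ = Real.exp (-T2 t + (2 * L + T1 t)) := by rw [← Real.exp_add, ← Real.exp_add]
        _ ≤ 1 := by
            rw [Real.exp_le_one_iff]
            linarith
    have a6 : Real.exp (-T3 t) * Real.exp (-2) ≤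
        Real.exp (-T3 t) * Real.exp (-(2 * (Real.exp (-T2 t) * (D * Real.exp (T1 t))))) := by
      refine mul_le_mul_of_nonneg_left ?_ (Real.exp_pos _).le
      rw [Real.exp_le_exp]
      linarith
    linarith

end Pool.Agent.Q271.LD2
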