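import Pool.Agent.Q271.LD2.Core
import Pool.Agent.Q271.LD2.Params2

set_option autoImplicit false

/-!
# One phase with light rows: the statement used in the iteration
-/

open MeasureTheory ProbabilityTheory

namespace Pool.Agent.Q271.LD2

open Pool.Agent.H320R2.LD Pool.Agent.H320R2.LD.PHASE

open Classical in
/-- admissible heavy part -/
def Adm2 {V W : Type} [Fintype V] [Fintype W] (t : ℝ) (A : W → V → ℝ) : Prop :=
  (∀ R v, A R v ^ 2 * t ≤ 1) ∧ (∀ R, ∑ v, A R v ^ 2 ≤ 1) ∧ (∀ v, ∑ R, A R v ^ 2 ≤ 1) ∧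
    (∀ R, ((Finset.univ.filter (fun v => A R v ≠ 0)).card : ℝ) ≤ t ^ (39/20 : ℝ)) ∧
    (∀ v, ((Finset.univ.filter (fun R => A R v ≠ 0)).card : ℝ) ≤ t ^ (39/20 : ℝ)) ∧
    ∃ L1 L2 : ℝ, 0 ≤ L1 ∧ 0 ≤ L2 ∧ (∀ R, ∑ v, |A R v| ≤ L1) ∧ (∀ v, ∑ R, |A R v| ≤ L2) ∧
      L1 * L2 ≤ t ^ (3/2 : ℝ)

open Classical in
/-- light rows: `k` is the scale, `μ` the share of the mass -/
def Lgt {V W' : Type} [Fintype V] [Fintype W'] (t : ℝ) (B : W' → V → ℝ) (k : W' → ℕ)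
    (μ : W' → ℝ) : Prop :=
  (∀ i, 0 < μ i ∧ μ i ≤ 2) ∧
    (∀ i, ∑ v, B i v ^ 2 ≤ nl t (k i) (μ i)) ∧
    (∀ i, ((Finset.univ.filter (fun v => B i v ≠ 0)).card : ℝ) ≤ sl t (k i) (μ i)) ∧
    (∀ v κ, ((Finset.univ.filter (fun i => B i v ≠ 0 ∧ k i = κ)).card : ℝ) ≤
      2 * t ^ (39/20 : ℝ) * 2 ^ κ) ∧
    ∀ i, ∑ v, |B i v| ≤ Real.sqrt t * μ i

/-- Schur test -/
theorem schur {V W : Type} [Fintype V] [Fintype W] (b : W → V → ℝ) (L1 L2 : ℝ) (h10 : 0 ≤ L1)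
    (r1 : ∀ R, ∑ v, |b R v| ≤ L1) (r2 : ∀ v, ∑ R, |b R v| ≤ L2) (x : V → ℝ) :
    ∑ R, (∑ v, |b R v| * |x v|) ^ 2 ≤ (L1 * L2) * nsq x := by
  have r3 : ∀ R, (∑ v, |b R v| * |x v|) ^ 2 ≤ L1 * ∑ v, |b R v| * x v ^ 2 := by
    intro R
    have cs := Finset.sum_mul_sq_le_sq_mul_sq Finset.univ (fun v => Real.sqrt |b R v|)
      (fun v => Real.sqrt |b R v| * |x v|)
    have e1 : ∀ v, Real.sqrt |b R v| * (Real.sqrt |b R v| * |x v|) = |b R v| * |x v| := by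
      intro v
      rw [← mul_assoc, Real.mul_self_sqrt (abs_nonneg _)]
    have e2 : ∀ v, Real.sqrt |b R v| ^ 2 = |b R v| := fun v => Real.sq_sqrt (abs_nonneg _)
    have e3 : ∀ v, (Real.sqrt |b R v| * |x v|) ^ 2 = |b R v| * x v ^ 2 := by
      intro v
      rw [mul_pow, Real.sq_sqrt (abs_nonneg _), sq_abs]
    simp only [e1, e2, e3] at cs
    refine cs.trans ?_
    exact mul_le_mul_of_nonneg_right (r1 R)
      (Finset.sum_nonneg fun v _ => mul_nonneg (abs_nonneg _) (sq_nonneg _))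
  calc ∑ R, (∑ v, |b R v| * |x v|) ^ 2
      ≤ ∑ R, L1 * ∑ v, |b R v| * x v ^ 2 := Finset.sum_le_sum fun R _ => r3 R
    _ = L1 * ∑ v, (∑ R, |b R v|) * x v ^ 2 := by
        rw [← Finset.mul_sum, Finset.sum_comm]
        congr 1
        refine Finset.sum_congr rfl fun v _ => ?_
        rw [Finset.sum_mul]
    _ ≤ L1 * ∑ v, L2 * x v ^ 2 := by
        refine mul_le_mul_of_nonneg_left ?_ h10
        exact Finset.sum_le_sum fun v _ => mul_le_mul_of_nonneg_right (r2 v) (sq_nonneg _)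
    _ = (L1 * L2) * nsq x := by
        unfold nsq
        rw [← Finset.mul_sum, mul_assoc]

open Classical in
/-- weights of the light rows through one column -/
theorem wsum {V W' : Type} [Fintype V] [Fintype W'] (t : ℝ) (ht : 0 < t) (B : W' → V → ℝ)
    (k : W' → ℕ) (μ : W' → ℝ) (hB : Lgt t B k μ) (c : ℝ) (hc : 0 ≤ c) (v : V) :
    ∑ i ∈ Finset.univ.filter (fun i => B i v ≠ 0), ((1/4 : ℝ) ^ (k i) * c) ≤
      4 * t ^ (39/20 : ℝ) * c := by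
  obtain ⟨-, -, -, h4, -⟩ := hB
  set S := Finset.univ.filter (fun i => B i v ≠ 0) with hS
  set K := S.sup k + 1 with hK
  have hkK : ∀ i ∈ S, k i ∈ Finset.range K := by
    intro i hi
    rw [Finset.mem_range, hK]
    exact Nat.lt_succ_of_le (Finset.le_sup (f := k) hi)
  have h1 : ∑ i ∈ S, ((1/4 : ℝ) ^ (k i) * c) =
      ∑ κ ∈ Finset.range K, ∑ i ∈ S.filter (fun i => k i = κ), ((1/4 : ℝ) ^ (k i) * c) :=
    (Finset.sum_fiberwise_of_maps_to hkK _).symm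
  have h2 : ∀ κ, ∑ i ∈ S.filter (fun i => k i = κ), ((1/4 : ℝ) ^ (k i) * c) ≤
      2 * t ^ (39/20 : ℝ) * c * (1/2) ^ κ := by
    intro κ
    have e1 : ∑ i ∈ S.filter (fun i => k i = κ), ((1/4 : ℝ) ^ (k i) * c) =
        ((S.filter (fun i => k i = κ)).card : ℝ) * ((1/4 : ℝ) ^ κ * c) := by
      rw [← nsmul_eq_mul, ← Finset.sum_const]
      refine Finset.sum_congr rfl fun i hi => ?_
      rw [(Finset.mem_filter.1 hi).2]
    rw [e1]
    have e2 : ((S.filter (fun i => k i = κ)).card : ℝ) ≤ 2 * t ^ (39/20 : ℝ) * 2 ^ κ := by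
      have := h4 v κ
      rw [hS, Finset.filter_filter]
      convert this using 3
    have e3 : (2:ℝ) ^ κ * (1/4) ^ κ = (1/2) ^ κ := by rw [← mul_pow]; norm_num
    calc ((S.filter (fun i => k i = κ)).card : ℝ) * ((1/4 : ℝ) ^ κ * c)
        ≤ (2 * t ^ (39/20 : ℝ) * 2 ^ κ) * ((1/4 : ℝ) ^ κ * c) :=
          mul_le_mul_of_nonneg_right e2 (by positivity)
      _ = 2 * t ^ (39/20 : ℝ) * c * (2 ^ κ * (1/4) ^ κ) := by ring
      _ = _ := by rw [e3]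
  have h3 : ∑ κ ∈ Finset.range K, (1/2 : ℝ) ^ κ ≤ 2 := by
    have := geom_sum_eq (show (1/2 : ℝ) ≠ 1 by norm_num) K
    rw [this]
    have : (0:ℝ) < (1/2) ^ K := by positivity
    have e : ((1/2 : ℝ) ^ K - 1) / (1/2 - 1) = 2 - 2 * (1/2) ^ K := by ring
    rw [e]; linarith
  have goal : ∑ i ∈ S, ((1/4 : ℝ) ^ (k i) * c) ≤ 4 * t ^ (39/20 : ℝ) * c := by
    rw [h1]
    calc ∑ κ ∈ Finset.range K, ∑ i ∈ S.filter (fun i => k i = κ), ((1/4 : ℝ) ^ (k i) * c)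
        ≤ ∑ κ ∈ Finset.range K, 2 * t ^ (39/20 : ℝ) * c * (1/2) ^ κ :=
          Finset.sum_le_sum fun κ _ => h2 κ
      _ = 2 * t ^ (39/20 : ℝ) * c * ∑ κ ∈ Finset.range K, (1/2 : ℝ) ^ κ := by
          rw [← Finset.mul_sum]
      _ ≤ 2 * t ^ (39/20 : ℝ) * c * 2 := mul_le_mul_of_nonneg_left h3 (by positivity)
      _ = _ := by ring
  exact goal

/-- PHASE2: one phase with light rows. -/
def St_PHASE2 : Prop := ∃ C t0 : ℝ, 0 < C ∧ 2 ≤ t0 ∧ ∀ (t s : ℝ), t0 ≤ t →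
  t ^ (-(1/100) : ℝ) ≤ s → s ≤ 1 → ∀ (V W W' : Type) [Fintype V] [Fintype W] [Fintype W']
  (A : W → V → ℝ) (B : W' → V → ℝ) (k : W' → ℕ) (μ : W' → ℝ) (a : V → ℝ),
  Adm2 t A → Lgt t B k μ → (∀ v, |a v| ≤ 1) → (∀ R, Phi A a R ≤ s) →
  ∃ a' : V → ℝ, (∀ v, |a' v| ≤ 1) ∧ (∀ R, Phi A a' R ≤ 4/5 * s) ∧
    (∀ R, |∑ v, A R v * (a' v - a v)| ≤ C * s ^ (1/4 : ℝ)) ∧
    ∀ i, |∑ v, B i v * (a' v - a v)| ≤ dl t (k i) (μ i)

/-- The phase lemma. -/
theorem prove_PHASE2 (hmix : St_MIX) (hEX : St_EX) (hSOL : St_SOL) (hLOC : St_LOC)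
    (hFAR : St_FAR) (hEH : St_EH) (hMEAN : St_MEAN)
    (hGEX : St_GEX) (hCONC : St_CONC) (hMOM : St_MOM) (hPOT1 : St_POT1) : St_PHASE2 := by
  classical
  obtain ⟨Ch, hCh, hEH'⟩ := hEH 400 (by norm_num)
  obtain ⟨t1, ht1⟩ := Filter.eventually_atTop.mp ev_big
  set CK : ℝ := 1 + 16000 * Ch with hCK
  have hCK1 : 1 ≤ CK := by linarith
  refine ⟨CK + 3, max t1 2, by positivity, le_max_right _ _, ?_⟩
  intro t s ht hts hs1 V W W' _ _ _ A B k μ a hA hB ha hPhi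
  have hbig : Big t := ht1 t ((le_max_left _ _).trans ht)
  obtain ⟨hA1, hA2, hA3, hA4, hA5, L1, L2, hL1, hL2, hr1, hr2, hLL⟩ := hA
  obtain ⟨hB1, hB2, hB3, hB4, hB5⟩ := id hB
  obtain ⟨p1, p2, p3, p4, p5, p6, p7, p8, p9, p10, p11, p12⟩ :=
    param2 hbig s hts ⌊t ^ (39/20 : ℝ)⌋₊ ⌈5 * t ^ (9/10 : ℝ) * Real.log t⌉₊ rfl rfl
  have ht0 : 0 < t := hbig.pos
  have ht1000 : 1000 ≤ t := le_trans (by norm_num) hbig.1
  have hs : 0 < s := lt_of_lt_of_le (Real.rpow_pos_of_pos ht0 _) hts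
  set K : ℝ := CK * s ^ (-(1/4) : ℝ) with hK
  have hsK : 1 ≤ s ^ (-(1/4) : ℝ) := Real.one_le_rpow_of_pos_of_le_one_of_nonpos hs hs1 (by norm_num)
  have hK1 : 1 ≤ K := by
    rw [hK]
    nlinarith
  have hs4 : (s ^ (-(1/4) : ℝ)) ^ 4 = 1 / s := by
    rw [← Real.rpow_natCast, ← Real.rpow_mul hs.le]
    norm_num
    rw [Real.rpow_neg_one]
  have hKs : 16 * ((1 / s) * (Ch * (K⁻¹) ^ 4)) ≤ 1 / 1000 := by
    rw [inv_pow, hK, mul_pow, hs4]
    have h1 : (1 / s) * (Ch * (CK ^ 4 * (1 / s))⁻¹) = Ch / CK ^ 4 := by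
      field_simp
    rw [h1, mul_div_assoc', div_le_div_iff₀ (by positivity) (by norm_num)]
    have h2 : CK ≤ CK ^ 4 := by
      calc CK = CK ^ 1 := (pow_one _).symm
        _ ≤ CK ^ 4 := pow_le_pow_right₀ hCK1 (by norm_num)
    linarith
  have hpow : (0 : ℝ) < t ^ (-(1/4) : ℝ) := Real.rpow_pos_of_pos ht0 _
  have hcont := (hPOT1 K (t ^ (-(1/4) : ℝ)) hK1 hpow (by linarith)).1
  have hmono := (hPOT1 K (t ^ (-(1/4) : ℝ)) hK1 hpow (by linarith)).2.2.1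
  choose z hz using fun y => hEX V W (bb A a s) (pf K (t ^ (-(1/4) : ℝ))) hcont hmono y
  have hq0 : (0 : ℝ) < t ^ (1/16 : ℝ) := Real.rpow_pos_of_pos ht0 _
  -- the operator norm
  have hbabs : ∀ R v, |bb A a s R v| ≤ |A R v| / Real.sqrt s := by
    intro R v
    unfold bb
    rw [abs_div, abs_mul, abs_of_nonneg (rho_nonneg ha v), abs_of_nonneg (Real.sqrt_nonneg s)]
    refine div_le_div_of_nonneg_right ?_ (Real.sqrt_nonneg s)
    exact mul_le_of_le_one_right (abs_nonneg _) (rho_le_one v)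
  have hN1 : ∀ x : V → ℝ, ∑ R, (∑ v, |bb A a s R v| * |x v|) ^ 2 ≤
      (t ^ (3/2 : ℝ) / s) * nsq x := by
    intro x
    refine (schur (bb A a s) (L1 / Real.sqrt s) (L2 / Real.sqrt s) (by positivity)
      (fun R => ?_) (fun v => ?_) x).trans ?_
    · refine (Finset.sum_le_sum fun v _ => hbabs R v).trans ?_
      rw [← Finset.sum_div]
      exact div_le_div_of_nonneg_right (hr1 R) (Real.sqrt_nonneg s)
    · refine (Finset.sum_le_sum fun R _ => hbabs R v).trans ?_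
      rw [← Finset.sum_div]
      exact div_le_div_of_nonneg_right (hr2 v) (Real.sqrt_nonneg s)
    · refine mul_le_mul_of_nonneg_right ?_ (PHASE.nsq_nonneg x)
      rw [div_mul_div_comm, Real.mul_self_sqrt hs.le]
      exact div_le_div_of_nonneg_right hLL hs.le
  set δ1 : ℝ := 2 * Real.exp (-t) + 2 * Real.exp (-((1 / (2 * t)) ^ 2 *
      Real.exp (4 * t ^ (-(9/10) : ℝ) * (⌈5 * t ^ (9/10 : ℝ) * Real.log t⌉₊ : ℕ)) /
        (16 * 400 ^ 2))) with hδ1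
  have hsq : Real.sqrt t * (1 / t) ≤ t ^ (-(1/200) : ℝ) / 2 := by
    have e0 : 1 / t = t ^ (-1 : ℝ) := by rw [Real.rpow_neg_one, one_div]
    have e1 : Real.sqrt t * (1 / t) = t ^ (-(1/2) : ℝ) := by
      rw [e0, Real.sqrt_eq_rpow, ← Real.rpow_add ht0]; norm_num
    have e2 : t ^ (-(1/2) : ℝ) = t ^ (-(1/200) : ℝ) * t ^ (-(99/200) : ℝ) := by
      rw [← Real.rpow_add ht0]; norm_num
    have e3 : t ^ (-(99/200) : ℝ) ≤ 1 / 2 := by
      calc t ^ (-(99/200) : ℝ) ≤ t ^ (-(1/4) : ℝ) :=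
            Real.rpow_le_rpow_of_exponent_le hbig.one (by norm_num)
        _ ≤ 1 / 1000 := p2
        _ ≤ 1 / 2 := by norm_num
    rw [e1, e2]
    have e4 : t ^ (-(1/200) : ℝ) * t ^ (-(99/200) : ℝ) ≤ t ^ (-(1/200) : ℝ) * (1 / 2) :=
      mul_le_mul_of_nonneg_left e3 (by positivity)
    linarith
  obtain ⟨a', h1, h2, h3, h4⟩ := core_phase hmix hSOL hLOC hFAR hMEAN hGEX hCONC hMOM A B a t s
    hA1 hA3 ha hPhi ht1000 hs hs1 400 K (t ^ (-(1/4) : ℝ)) (t ^ (-(9/10) : ℝ)) (t ^ (1/16 : ℝ))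
    (Real.exp (-t)) (1 / (2 * t)) (1 / 10 ^ 12) Ch (t ^ (3/2 : ℝ) / s) ⌊t ^ (39/20 : ℝ)⌋₊
    ⌈5 * t ^ (9/10 : ℝ) * Real.log t⌉₊
    (fun R => Nat.le_floor (by convert hA4 R using 3))
    (fun v => Nat.le_floor (by convert hA5 v using 3))
    rfl hK1 hpow (by linarith) p2 rfl hbig.2.1 p3
    (Real.rpow_pos_of_pos ht0 _) p4 p1 (by positivity) hN1 p5 (Real.exp_pos _)
    (by rw [Real.exp_le_one_iff]; linarith) (by positivity) p6 p7 p8 hCh
    (fun z hz R => hEH' V W (bb A a s) K (t ^ (-(1/4) : ℝ)) z hK1 hpow (by linarith) hz R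
      (bb_row ha hs R (hPhi R))) hKs δ1 hδ1 (Real.exp (T1 t)) p10
    (fun i => (1/4 : ℝ) ^ (k i) * Real.exp (-T3 t)) (fun i => dl t (k i) (μ i))
    (fun i => nl t (k i) (μ i)) (fun i => sl t (k i) (μ i)) (Real.exp (-T3 t))
    (4 * t ^ (39/20 : ℝ) * Real.exp (-T3 t)) (Real.exp (-T2 t))
    (fun i => by positivity)
    (fun i => by
      have e1 : (1/4 : ℝ) ^ (k i) ≤ 1 := pow_le_one₀ (by norm_num) (by norm_num)
      have e2 : Real.exp (-T3 t) ≤ 1 / 2 := by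
        have := hbig.T3pos
        have := hbig.c32
        have := hbig.c21
        have := hbig.T1big
        have e3 : Real.exp (-T3 t) ≤ Real.exp (-1) := by
          rw [Real.exp_le_exp]
          linarith [show (1:ℝ) ≤ 10 ^ 15 by norm_num]
        have e4 : Real.exp (-1) ≤ 1 / 2 := by
          rw [Real.exp_neg, one_div]
          exact inv_anti₀ (by norm_num) (by linarith [Real.add_one_le_exp (1:ℝ)])
        linarith
      have e5 : (0:ℝ) ≤ (1/4 : ℝ) ^ (k i) := by positivity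
      have e6 := Real.exp_pos (-T3 t)
      nlinarith)
    (Real.exp_pos _).le
    (by
      have := hbig.T3pos
      have := hbig.c32
      have := hbig.c21
      have := hbig.T1big
      have e3 : Real.exp (-T3 t) ≤ Real.exp (-1) := by
        rw [Real.exp_le_exp]
        linarith [show (1:ℝ) ≤ 10 ^ 15 by norm_num]
      have e4 : Real.exp (-1) ≤ 1 / 2 := by
        rw [Real.exp_neg, one_div]
        exact inv_anti₀ (by norm_num) (by linarith [Real.add_one_le_exp (1:ℝ)])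
      linarith)
    (Real.exp_pos _).le p11
    (fun v => by
      exact wsum t ht0 B k μ hB (Real.exp (-T3 t)) (Real.exp_pos _).le v)
    (fun i => dl_pos ht0 _ _ (hB1 i).1) (fun i => nl_pos ht0 _ _ (hB1 i).1)
    (fun i => hB2 i) (fun i => by convert hB3 i using 3)
    (fun i => by
      have e1 := hB5 i
      have e2 : (∑ v, |B i v|) * (1 / t) ≤ (Real.sqrt t * μ i) * (1 / t) :=
        mul_le_mul_of_nonneg_right e1 (by positivity)
      have e3 : (Real.sqrt t * μ i) * (1 / t) = (Real.sqrt t * (1 / t)) * μ i := by ring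
      have e4 : (Real.sqrt t * (1 / t)) * μ i ≤ (t ^ (-(1/200) : ℝ) / 2) * μ i :=
        mul_le_mul_of_nonneg_right hsq (hB1 i).1.le
      have e5 : (t ^ (-(1/200) : ℝ) / 2) * μ i ≤ dl t (k i) (μ i) / 2 := by
        unfold dl
        have e6 : (0:ℝ) < (9/10) ^ (k i) := by positivity
        have e7 : 0 < t ^ (-(1/200) : ℝ) := by positivity
        nlinarith [mul_pos e7 e6]
      linarith)
    p12
    (fun i => by
      by_cases hki : ((k i : ℕ) : ℝ) ≤ 10 * T1 t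
      · left
        exact modL hbig (k i) (μ i) δ1 (hB1 i).1 (hB1 i).2 p9 hki
      · right
        exact ultL hbig (k i) (μ i) (hB1 i).1 (hB1 i).2 (not_le.1 hki).le)
    z hz
  refine ⟨a', h1, fun R => (h2 R).trans ?_, fun R => (h3 R).trans ?_, h4⟩
  · nlinarith
  · have hs14 : 0 < s ^ (1/4 : ℝ) := Real.rpow_pos_of_pos hs _
    have e1 : Real.sqrt s = s ^ (1/4 : ℝ) * s ^ (1/4 : ℝ) := by
      rw [← Real.rpow_add hs, Real.sqrt_eq_rpow]; norm_num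
    have e2 : s ^ (-(1/4) : ℝ) * s ^ (1/4 : ℝ) = 1 := by
      rw [← Real.rpow_add hs]; norm_num
    have e3 : s ^ (1/4 : ℝ) ≤ 1 := Real.rpow_le_one hs.le hs1 (by norm_num)
    rw [e1, hK]
    calc (CK * s ^ (-(1/4) : ℝ) + 3) * (s ^ (1/4 : ℝ) * s ^ (1/4 : ℝ))
        = CK * (s ^ (-(1/4) : ℝ) * s ^ (1/4 : ℝ)) * s ^ (1/4 : ℝ)
          + 3 * (s ^ (1/4 : ℝ)) * s ^ (1/4 : ℝ) := by ring
      _ = CK * s ^ (1/4 : ℝ) + 3 * (s ^ (1/4 : ℝ)) * s ^ (1/4 : ℝ) := by rw [e2]; ring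
      _ ≤ (CK + 3) * s ^ (1/4 : ℝ) := by nlinarith

end Pool.Agent.Q271.LD2
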