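import Pool.Agent.H320R2.LD.ROUND
import Pool.Agent.Q271.LD2.Phase2

set_option autoImplicit false

/-!
# The final rounding with light rows
-/

open MeasureTheory ProbabilityTheory

namespace Pool.Agent.Q271.LD2

open Pool.Agent.H320R2.LD Pool.Agent.H320R2.LD.ROUND

/-- one variable, no restriction on the coefficient -/
theorem mgf_one' (a c : ℝ) (ha : |a| ≤ 1) :
    ∫ x, Real.exp (c * (sg x - a)) ∂(nu a) ≤ Real.exp (4 * c ^ 2) := by
  by_cases hc : |c| ≤ 1 / 2
  · refine (mgf_one a c ha hc).trans ?_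
    rw [Real.exp_le_exp]
    have h1 := abs_nonneg a
    nlinarith [sq_nonneg c]
  · have hc' : 1 / 2 < |c| := not_le.1 hc
    haveI := nu_prob a ha
    have hb : ∀ x, ‖Real.exp (c * (sg x - a))‖ ≤ Real.exp (4 * c ^ 2) := by
      intro x
      rw [Real.norm_eq_abs, abs_of_pos (Real.exp_pos _), Real.exp_le_exp]
      have h1 := sg_abs x
      have h2 : |sg x - a| ≤ 2 := by
        calc |sg x - a| ≤ |sg x| + |a| := abs_sub _ _
          _ ≤ 2 := by linarith
      have h3 : c * (sg x - a) ≤ |c| * 2 := by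
        refine (le_abs_self _).trans ?_
        rw [abs_mul]
        exact mul_le_mul_of_nonneg_left h2 (abs_nonneg _)
      have h4 : c ^ 2 = |c| ^ 2 := (sq_abs c).symm
      rw [h4]
      nlinarith
    have h1 := norm_integral_le_of_norm_le_const (μ := nu a)
      (Filter.Eventually.of_forall hb)
    simp only [probReal_univ, mul_one] at h1
    exact (le_abs_self _).trans h1

section
variable {V : Type} [Fintype V]

theorem mgf_sum' (a c : V → ℝ) (ha : ∀ v, |a v| ≤ 1) :
    ∫ x, Real.exp (∑ v, c v * (sg (x v) - a v)) ∂(Measure.pi fun v => nu (a v))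
      ≤ Real.exp (∑ v, 4 * c v ^ 2) := by
  haveI : ∀ v, IsProbabilityMeasure (nu (a v)) := fun v => nu_prob _ (ha v)
  simp_rw [Real.exp_sum]
  rw [integral_fintype_prod_eq_prod (𝕜 := ℝ) (fun v u => Real.exp (c v * (sg u - a v)))]
  apply Finset.prod_le_prod
  · intro v _
    exact integral_nonneg fun x => (Real.exp_pos _).le
  · intro v _
    exact mgf_one' _ _ (ha v)

theorem tail' (a c : V → ℝ) (ha : ∀ v, |a v| ≤ 1) (lam s : ℝ) (hl : 0 < lam) :
    (Measure.pi fun v => nu (a v)).real {x | s < ∑ v, c v * (sg (x v) - a v)}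
      ≤ Real.exp (∑ v, 4 * (lam * c v) ^ 2 - lam * s) := by
  haveI : ∀ v, IsProbabilityMeasure (nu (a v)) := fun v => nu_prob _ (ha v)
  set μ := Measure.pi fun v => nu (a v) with hμ
  haveI : IsProbabilityMeasure μ := by rw [hμ]; infer_instance
  have hI : Integrable (fun x : V → ℝ => Real.exp (∑ v, (lam * c v) * (sg (x v) - a v))) μ := by
    apply Integrable.of_bound (C := Real.exp (∑ v, |lam * c v| * 2))
    · exact ((meas_sum a (fun v => lam * c v)).exp).aestronglyMeasurable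
    · refine Filter.Eventually.of_forall fun x => ?_
      rw [Real.norm_eq_abs, abs_of_pos (Real.exp_pos _)]
      apply Real.exp_le_exp.mpr
      apply Finset.sum_le_sum
      intro v _
      refine (le_abs_self _).trans ?_
      rw [abs_mul (lam * c v) (sg (x v) - a v)]
      apply mul_le_mul_of_nonneg_left _ (abs_nonneg _)
      have h1 := sg_abs (x v)
      have h2 := ha v
      calc |sg (x v) - a v| ≤ |sg (x v)| + |a v| := abs_sub _ _
        _ ≤ 2 := by linarith
  have hM := mul_meas_ge_le_integral_of_nonneg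
    (Filter.Eventually.of_forall fun x => (Real.exp_pos _).le) hI (Real.exp (lam * s))
  have h1 := mgf_sum' a (fun v => lam * c v) ha
  have hsub : μ.real {x | s < ∑ v, c v * (sg (x v) - a v)}
      ≤ μ.real {x | Real.exp (lam * s) ≤ Real.exp (∑ v, (lam * c v) * (sg (x v) - a v))} := by
    apply measureReal_mono _ (measure_ne_top _ _)
    intro x hx
    simp only [Set.mem_setOf_eq] at hx ⊢
    apply Real.exp_le_exp.mpr
    have : ∑ v, (lam * c v) * (sg (x v) - a v) = lam * ∑ v, c v * (sg (x v) - a v) := by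
      rw [Finset.mul_sum]; exact Finset.sum_congr rfl fun v _ => by ring
    rw [this]
    exact mul_le_mul_of_nonneg_left hx.le hl.le
  have hpos := Real.exp_pos (lam * s)
  have h3 : Real.exp (lam * s) * μ.real {x | s < ∑ v, c v * (sg (x v) - a v)}
      ≤ Real.exp (∑ v, 4 * (lam * c v) ^ 2) :=
    le_trans (mul_le_mul_of_nonneg_left hsub hpos.le) (le_trans hM h1)
  rw [Real.exp_sub, le_div_iff₀ hpos, mul_comm]
  exact h3

/-- two-sided Hoeffding bound -/
theorem hoeff (a c : V → ℝ) (ha : ∀ v, |a v| ≤ 1) (ν δ : ℝ) (hν : 0 < ν) (hδ : 0 < δ)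
    (hc : ∑ v, c v ^ 2 ≤ ν) :
    (Measure.pi fun v => nu (a v)).real {x | δ < |∑ v, c v * (sg (x v) - a v)|}
      ≤ 2 * Real.exp (-(δ ^ 2 / (16 * ν))) := by
  haveI : ∀ v, IsProbabilityMeasure (nu (a v)) := fun v => nu_prob _ (ha v)
  set μ := Measure.pi fun v => nu (a v) with hμ
  haveI : IsProbabilityMeasure μ := by rw [hμ]; infer_instance
  have key : ∀ σ : ℝ, σ ^ 2 = 1 → μ.real {x | δ < ∑ v, (σ * c v) * (sg (x v) - a v)} ≤
      Real.exp (-(δ ^ 2 / (16 * ν))) := by
    intro σ hσ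
    refine (tail' a (fun v => σ * c v) ha (δ / (8 * ν)) δ (by positivity)).trans ?_
    rw [Real.exp_le_exp]
    have h1 : ∑ v, 4 * (δ / (8 * ν) * (σ * c v)) ^ 2 =
        4 * (δ / (8 * ν)) ^ 2 * ∑ v, c v ^ 2 := by
      rw [Finset.mul_sum]
      refine Finset.sum_congr rfl fun v _ => ?_
      calc 4 * (δ / (8 * ν) * (σ * c v)) ^ 2 = 4 * (δ / (8 * ν)) ^ 2 * (σ ^ 2 * c v ^ 2) := by ring
        _ = _ := by rw [hσ, one_mul]
    rw [h1]
    have h2 : 4 * (δ / (8 * ν)) ^ 2 * ∑ v, c v ^ 2 ≤ 4 * (δ / (8 * ν)) ^ 2 * ν :=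
      mul_le_mul_of_nonneg_left hc (by positivity)
    have h3 : 4 * (δ / (8 * ν)) ^ 2 * ν - δ / (8 * ν) * δ = -(δ ^ 2 / (16 * ν)) := by
      field_simp
      ring
    linarith
  have h1 := key 1 (by norm_num)
  have h2 := key (-1) (by norm_num)
  have hsub : {x : V → ℝ | δ < |∑ v, c v * (sg (x v) - a v)|} ⊆
      {x : V → ℝ | δ < ∑ v, (1 * c v) * (sg (x v) - a v)} ∪
        {x : V → ℝ | δ < ∑ v, (-1 * c v) * (sg (x v) - a v)} := by
    intro x hx
    simp only [Set.mem_setOf_eq] at hx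
    rcases lt_abs.mp hx with h | h
    · left
      simp only [Set.mem_setOf_eq, one_mul]; exact h
    · right
      simp only [Set.mem_setOf_eq]
      have : ∑ v, (-1 * c v) * (sg (x v) - a v) = -∑ v, c v * (sg (x v) - a v) := by
        rw [← Finset.sum_neg_distrib]; exact Finset.sum_congr rfl fun v _ => by ring
      rw [this]; exact h
  refine (measureReal_mono hsub (measure_ne_top _ _)).trans
    ((measureReal_union_le _ _).trans ?_)
  linarith

end

/-- the light rows in the rounding -/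
theorem rndL {t : ℝ} (h : Big t) (k : ℕ) (μ : ℝ) (hμ : 0 < μ) (hμ2 : μ ≤ 2) :
    2 * Real.exp (-(dl t k μ ^ 2 / (16 * nl t k μ))) ≤
      ((1/4) ^ k * (t ^ 7)⁻¹) * Real.exp (-(2 * ((t ^ 5)⁻¹ * sl t k μ))) := by
  have ht := h.pos
  have ht1 := h.one
  have c1 := h.T1big
  have c2 := h.c21
  have c3 := h.c32
  have c4 := h.c43
  have cL := h.L_le
  have hL1 := h.L1
  have hk0 : (0:ℝ) ≤ k := Nat.cast_nonneg k
  have hT3 : 5 ≤ T3 t := by
    have := h.T1pos
    linarith [show (5:ℝ) ≤ 10 ^ 15 by norm_num]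
  have hn := nl_pos ht k μ hμ
  set Xn := (t ^ 5)⁻¹ * sl t k μ with hXn
  have key : (1 + 2 * (k:ℝ) + 7 * Real.log t) + 2 * Xn ≤ dl t k μ ^ 2 / (16 * nl t k μ) := by
    rw [le_div_iff₀ (by positivity)]
    have rA := ratA ht k μ hμ hμ2
    have rB := ratB ht k μ hμ
    have pa : (1 + 2 * (k:ℝ) + 7 * Real.log t) * 16 ≤ T4 t * (3/2) ^ k / 4 := by
      have b4 := threehalf_lin k
      have b5 : T4 t * (1 + (k:ℝ) / 2) ≤ T4 t * (3/2) ^ k :=
        mul_le_mul_of_nonneg_left b4 h.T4pos.le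
      have b6 : (10:ℝ) ^ 15 * T3 t * (1 + (k:ℝ) / 2) ≤ T4 t * (1 + (k:ℝ) / 2) :=
        mul_le_mul_of_nonneg_right c4 (by positivity)
      have b7 : 5 * (k:ℝ) ≤ T3 t * k := mul_le_mul_of_nonneg_right hT3 hk0
      have b8 : 100 * Real.log t ≤ T3 t := by
        have := h.T1pos
        linarith
      nlinarith
    have pb : (2 * Xn) * 16 ≤ T4 t * 2 ^ k * μ / 2 := by
      have e1 : (t ^ 5)⁻¹ * t ^ (39/20 : ℝ) ≤ 1 := by
        rw [← div_eq_inv_mul, div_le_one (by positivity)]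
        calc t ^ (39/20 : ℝ) ≤ t ^ ((5 : ℕ) : ℝ) :=
              Real.rpow_le_rpow_of_exponent_le ht1 (by norm_num)
          _ = t ^ 5 := Real.rpow_natCast t 5
      have e2 : (2 * Xn) * 16 = 64 * ((t ^ 5)⁻¹ * t ^ (39/20 : ℝ)) * (2 ^ k * μ) := by
        rw [hXn]
        unfold sl
        ring
      rw [e2]
      have e3 : (64 : ℝ) ≤ T4 t / 2 := by
        have := h.T1pos
        nlinarith
      calc 64 * ((t ^ 5)⁻¹ * t ^ (39/20 : ℝ)) * (2 ^ k * μ)
          ≤ 64 * 1 * (2 ^ k * μ) := by gcongr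
        _ ≤ T4 t / 2 * (2 ^ k * μ) := by
            rw [mul_one]
            exact mul_le_mul_of_nonneg_right e3 (by positivity)
        _ = T4 t * 2 ^ k * μ / 2 := by ring
    calc ((1 + 2 * (k:ℝ) + 7 * Real.log t) + 2 * Xn) * (16 * nl t k μ)
        = ((1 + 2 * (k:ℝ) + 7 * Real.log t) * 16 + (2 * Xn) * 16) * nl t k μ := by ring
      _ ≤ (T4 t * (3/2) ^ k / 4 + T4 t * 2 ^ k * μ / 2) * nl t k μ :=
          mul_le_mul_of_nonneg_right (add_le_add pa pb) hn.le
      _ = (1/2) * (T4 t * (3/2) ^ k / 2 * nl t k μ) + (1/2) * (T4 t * 2 ^ k * μ * nl t k μ) := by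
          ring
      _ ≤ dl t k μ ^ 2 := by linarith
  have e4 : 2 * Real.exp (-1) ≤ 1 := by
    have h1 : (2 : ℝ) ≤ Real.exp 1 := by linarith [Real.add_one_le_exp (1:ℝ)]
    rw [Real.exp_neg]
    have h2 : (Real.exp 1)⁻¹ ≤ 2⁻¹ := inv_anti₀ (by norm_num) h1
    linarith
  have e7 : Real.exp (-(7 * Real.log t)) = (t ^ 7)⁻¹ := by
    rw [Real.exp_neg, show 7 * Real.log t = ((7 : ℕ) : ℝ) * Real.log t by norm_num,
      ← Real.log_pow, Real.exp_log (by positivity)]
  calc 2 * Real.exp (-(dl t k μ ^ 2 / (16 * nl t k μ)))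
      ≤ 2 * Real.exp (-((1 + 2 * (k:ℝ) + 7 * Real.log t) + 2 * Xn)) := by
        refine mul_le_mul_of_nonneg_left ?_ (by norm_num)
        rw [Real.exp_le_exp]; linarith
    _ = (2 * Real.exp (-1)) * ((Real.exp (-(2 * k)) * Real.exp (-(7 * Real.log t))) *
          Real.exp (-(2 * Xn))) := by
        rw [mul_assoc, ← Real.exp_add, ← Real.exp_add, ← Real.exp_add]
        congr 2
        ring
    _ ≤ 1 * (((1/4) ^ k * Real.exp (-(7 * Real.log t))) * Real.exp (-(2 * Xn))) := by
        refine mul_le_mul e4 ?_ (by positivity) (by norm_num)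
        refine mul_le_mul_of_nonneg_right ?_ (Real.exp_pos _).le
        exact mul_le_mul_of_nonneg_right (quarter_pow_ge k) (Real.exp_pos _).le
    _ = _ := by rw [one_mul, e7]

/-- ROUND2: the final rounding. -/
def St_ROUND2 : Prop := ∃ t0 : ℝ, 2 ≤ t0 ∧ ∀ (t : ℝ), t0 ≤ t →
  ∀ (V W W' : Type) [Fintype V] [Fintype W] [Fintype W'] (A : W → V → ℝ) (B : W' → V → ℝ)
  (k : W' → ℕ) (μ : W' → ℝ) (a : V → ℝ), Adm2 t A → Lgt t B k μ →
  (∀ v, |a v| ≤ 1) → (∀ R, ∑ v, A R v ^ 2 * (1 - |a v|) ≤ 1 / Real.log t) →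
  ∃ x : V → ℝ, (∀ v, x v = 1 ∨ x v = -1) ∧ (∀ R, |∑ v, A R v * (x v - a v)| ≤ 10) ∧
    ∀ i, |∑ v, B i v * (x v - a v)| ≤ dl t (k i) (μ i)

theorem prove_ROUND2 (hmix : St_MIX) : St_ROUND2 := by
  classical
  obtain ⟨t1, ht1'⟩ := Filter.eventually_atTop.mp ev_big
  refine ⟨max t1 4096, le_trans (by norm_num) (le_max_right _ _), ?_⟩
  intro t ht V W W' _ _ _ A B k μ a hA hB ha hsum
  have hbig : Big t := ht1' t ((le_max_left _ _).trans ht)
  have ht4096 : 4096 ≤ t := (le_max_right _ _).trans ht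
  obtain ⟨hA1, hA2, hA3, hA4, hA5, -⟩ := hA
  obtain ⟨hB1, hB2, hB3, hB4, hB5⟩ := id hB
  have ht0 : 0 < t := by linarith
  have ht1 : 1 ≤ t := by linarith
  set lam := Real.log t with hlam
  have hlam0 : 0 < lam := Real.log_pos (by linarith)
  haveI : ∀ v, IsProbabilityMeasure (nu (a v)) := fun v => nu_prob _ (ha v)
  have hlb := log_bound t ht4096
  have hsm : ∀ R v, |lam * A R v| ≤ 1 / 2 := by
    intro R v
    have h1 := hA1 R v
    have h2 : |A R v| * Real.sqrt t ≤ 1 := by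
      have : (|A R v| * Real.sqrt t) ^ 2 ≤ 1 := by
        rw [mul_pow, sq_abs, Real.sq_sqrt ht0.le]; exact h1
      exact (sq_le_one_iff₀ (by positivity)).mp this
    rw [abs_mul, abs_of_pos hlam0]
    have h3 : |A R v| * (2 * lam) ≤ 1 := le_trans (mul_le_mul_of_nonneg_left hlb (abs_nonneg _)) h2
    linarith
  have key : ∀ R, ∀ σ : ℝ, (σ = 1 ∨ σ = -1) → (Measure.pi fun v => nu (a v)).real
      {x | 10 < ∑ v, (σ * A R v) * (sg (x v) - a v)} ≤ Real.exp (-8 * lam) := by
    intro R σ hσ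
    have hσ2 : σ ^ 2 = 1 := by rcases hσ with h | h <;> rw [h] <;> norm_num
    have hσa : |σ| = 1 := by rcases hσ with h | h <;> rw [h] <;> norm_num
    refine (tail a (fun v => σ * A R v) ha lam 10 hlam0 ?_).trans ?_
    · intro v
      have := hsm R v
      rw [show lam * (σ * A R v) = σ * (lam * A R v) by ring, abs_mul, hσa, one_mul]
      exact this
    · apply Real.exp_le_exp.mpr
      have h1 : ∑ v, 2 * (lam * (σ * A R v)) ^ 2 * (1 - |a v|)
          = 2 * lam ^ 2 * ∑ v, A R v ^ 2 * (1 - |a v|) := by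
        rw [Finset.mul_sum]
        refine Finset.sum_congr rfl fun v _ => ?_
        rw [show 2 * (lam * (σ * A R v)) ^ 2 * (1 - |a v|)
          = 2 * lam ^ 2 * (σ ^ 2) * (A R v ^ 2 * (1 - |a v|)) by ring, hσ2]; ring
      rw [h1]
      have h2 := hsum R
      have h3 : 2 * lam ^ 2 * ∑ v, A R v ^ 2 * (1 - |a v|) ≤ 2 * lam ^ 2 * (1 / lam) :=
        mul_le_mul_of_nonneg_left h2 (by positivity)
      have h4 : 2 * lam ^ 2 * (1 / lam) = 2 * lam := by field_simp
      linarith
  set S : W → Finset V := fun R => Finset.univ.filter (fun v => A R v ≠ 0) with hS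
  set E : W → Set (V → ℝ) := fun R => {x | 10 < |∑ v, A R v * (sg (x v) - a v)|} with hE
  have hEm : ∀ R, MeasurableSet (E R) := by
    intro R
    exact measurableSet_lt measurable_const ((meas_sum a (fun v => A R v)).abs)
  have hEp : ∀ R, (Measure.pi fun v => nu (a v)).real (E R) ≤ 2 * Real.exp (-8 * lam) := by
    intro R
    have h1 := key R 1 (Or.inl rfl)
    have h2 := key R (-1) (Or.inr rfl)
    have hsub : E R ⊆ {x | 10 < ∑ v, (1 * A R v) * (sg (x v) - a v)}
        ∪ {x | 10 < ∑ v, (-1 * A R v) * (sg (x v) - a v)} := by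
      intro x hx
      simp only [hE, Set.mem_setOf_eq] at hx
      rcases lt_abs.mp hx with h | h
      · left
        simp only [Set.mem_setOf_eq, one_mul]; exact h
      · right
        simp only [Set.mem_setOf_eq]
        have : ∑ v, (-1 * A R v) * (sg (x v) - a v) = -∑ v, A R v * (sg (x v) - a v) := by
          rw [← Finset.sum_neg_distrib]; exact Finset.sum_congr rfl fun v _ => by ring
        rw [this]; exact h
    calc (Measure.pi fun v => nu (a v)).real (E R)
        ≤ (Measure.pi fun v => nu (a v)).real ({x | 10 < ∑ v, (1 * A R v) * (sg (x v) - a v)}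
        ∪ {x | 10 < ∑ v, (-1 * A R v) * (sg (x v) - a v)}) :=
          measureReal_mono hsub (measure_ne_top _ _)
      _ ≤ _ := measureReal_union_le _ _
      _ ≤ 2 * Real.exp (-8 * lam) := by linarith
  -- light rows
  set SL : W' → Finset V := fun i => Finset.univ.filter (fun v => B i v ≠ 0) with hSL
  set EL : W' → Set (V → ℝ) := fun i => {x | dl t (k i) (μ i) <
    |∑ v, B i v * (sg (x v) - a v)|} with hEL
  have hELm : ∀ i, MeasurableSet (EL i) := by
    intro i
    exact measurableSet_lt measurable_const ((meas_sum a (fun v => B i v)).abs)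
  have hELp : ∀ i, (Measure.pi fun v => nu (a v)).real (EL i) ≤
      ((1/4) ^ (k i) * (t ^ 7)⁻¹) * Real.exp (-(2 * ((t ^ 5)⁻¹ * sl t (k i) (μ i)))) := by
    intro i
    refine (hoeff a (fun v => B i v) ha (nl t (k i) (μ i)) (dl t (k i) (μ i))
      (nl_pos ht0 _ _ (hB1 i).1) (dl_pos ht0 _ _ (hB1 i).1) (hB2 i)).trans ?_
    exact rndL hbig (k i) (μ i) (hB1 i).1 (hB1 i).2
  set EE : W ⊕ W' → Set (V → ℝ) := Sum.elim E EL with hEE
  set SS : W ⊕ W' → Finset V := Sum.elim S SL with hSS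
  set yy : W ⊕ W' → ℝ := Sum.elim (fun _ => (t ^ 7)⁻¹) (fun i => (1/4) ^ (k i) * (t ^ 7)⁻¹)
    with hyy
  have ht7 : (t ^ 7)⁻¹ ≤ 1 / 2 := by
    rw [one_div]
    refine inv_anti₀ (by norm_num) ?_
    calc (2:ℝ) ≤ t := by linarith
      _ ≤ t ^ 7 := le_self_pow₀ ht1 (by norm_num)
  have ht7p : 0 < (t ^ 7)⁻¹ := by positivity
  have hXX : ∀ u, ∑ j ∈ Finset.univ.filter (fun j => u ∈ SS j), yy j ≤ (t ^ 5)⁻¹ := by
    intro u
    rw [Finset.sum_filter, Fintype.sum_sum_type]
    have e1 : ∑ R : W, (if u ∈ SS (Sum.inl R) then yy (Sum.inl R) else 0) ≤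
        t ^ (39/20 : ℝ) * (t ^ 7)⁻¹ := by
      show ∑ R : W, (if u ∈ S R then (t ^ 7)⁻¹ else 0) ≤ _
      rw [← Finset.sum_filter, Finset.sum_const, nsmul_eq_mul]
      refine mul_le_mul_of_nonneg_right ?_ ht7p.le
      refine le_trans (le_of_eq ?_) (hA5 u)
      congr 2
      ext R
      simp [hS]
    have e2 : ∑ i : W', (if u ∈ SS (Sum.inr i) then yy (Sum.inr i) else 0) ≤
        4 * t ^ (39/20 : ℝ) * (t ^ 7)⁻¹ := by
      show ∑ i : W', (if u ∈ SL i then (1/4) ^ (k i) * (t ^ 7)⁻¹ else 0) ≤ _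
      rw [← Finset.sum_filter]
      refine le_trans (le_of_eq ?_) (wsum t ht0 B k μ hB (t ^ 7)⁻¹ ht7p.le u)
      refine Finset.sum_congr ?_ fun _ _ => rfl
      ext i
      simp [hSL]
    have e3 : t ^ (39/20 : ℝ) ≤ t ^ 2 / 5 := by
      have h1 : t ^ (39/20 : ℝ) * t ^ (1/20 : ℝ) = t ^ 2 := by
        rw [← Real.rpow_add ht0, show (39/20 : ℝ) + 1/20 = ((2 : ℕ) : ℝ) by norm_num,
          Real.rpow_natCast]
      have h2 : 5 ≤ t ^ (1/20 : ℝ) := by
        have h3 : t ^ (1/100 : ℝ) ≤ t ^ (1/20 : ℝ) :=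
          Real.rpow_le_rpow_of_exponent_le ht1 (by norm_num)
        linarith [hbig.rho, show (5:ℝ) ≤ 10 ^ 15 by norm_num]
      have h4 : 0 < t ^ (39/20 : ℝ) := by positivity
      nlinarith
    calc _ ≤ t ^ (39/20 : ℝ) * (t ^ 7)⁻¹ + 4 * t ^ (39/20 : ℝ) * (t ^ 7)⁻¹ := add_le_add e1 e2
      _ = 5 * t ^ (39/20 : ℝ) * (t ^ 7)⁻¹ := by ring
      _ ≤ 5 * (t ^ 2 / 5) * (t ^ 7)⁻¹ := by gcongr
      _ = (t ^ 5)⁻¹ := by field_simp
  obtain ⟨x, hx⟩ := wlll hmix (fun v => nu (a v)) EE SS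
    (by
      intro j
      rcases j with R | i
      · exact hEm R
      · exact hELm i)
    (by
      intro j
      rcases j with R | i
      · intro x y hxy hx
        have hx' : 10 < |∑ v, A R v * (sg (x v) - a v)| := hx
        show 10 < |∑ v, A R v * (sg (y v) - a v)|
        have : ∑ v, A R v * (sg (y v) - a v) = ∑ v, A R v * (sg (x v) - a v) := by
          refine Finset.sum_congr rfl fun v _ => ?_
          by_cases h : A R v = 0
          · rw [h]; ring
          · have hv : v ∈ SS (Sum.inl R) := by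
              show v ∈ S R
              simp [hS, h]
            rw [hxy v hv]
        rw [this]; exact hx'
      · intro x y hxy hx
        have hx' : dl t (k i) (μ i) < |∑ v, B i v * (sg (x v) - a v)| := hx
        show dl t (k i) (μ i) < |∑ v, B i v * (sg (y v) - a v)|
        have : ∑ v, B i v * (sg (y v) - a v) = ∑ v, B i v * (sg (x v) - a v) := by
          refine Finset.sum_congr rfl fun v _ => ?_
          by_cases h : B i v = 0
          · rw [h]; ring
          · have hv : v ∈ SS (Sum.inr i) := by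
              show v ∈ SL i
              simp [hSL, h]
            rw [hxy v hv]
        rw [this]; exact hx')
    yy
    (by
      intro j
      rcases j with R | i
      · exact ht7p.le
      · show 0 ≤ (1/4 : ℝ) ^ (k i) * (t ^ 7)⁻¹
        positivity)
    (by
      intro j
      rcases j with R | i
      · exact ht7
      · show (1/4 : ℝ) ^ (k i) * (t ^ 7)⁻¹ ≤ 1 / 2
        have e1 : (1/4 : ℝ) ^ (k i) ≤ 1 := pow_le_one₀ (by norm_num) (by norm_num)
        have e5 : (0:ℝ) ≤ (1/4 : ℝ) ^ (k i) := by positivity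
        nlinarith)
    (t ^ 5)⁻¹ hXX
    (by
      intro j
      rcases j with R | i
      · refine (hEp R).trans ?_
        show 2 * Real.exp (-8 * lam) ≤ (t ^ 7)⁻¹ * Real.exp (-(2 * ((t ^ 5)⁻¹ * ((S R).card : ℝ))))
        have h2 : Real.exp (-8 * lam) = (t ^ 8)⁻¹ := by
          rw [hlam, show -8 * Real.log t = -(8 * Real.log t) by ring, Real.exp_neg,
            show 8 * Real.log t = ((8 : ℕ) : ℝ) * Real.log t by norm_num, ← Real.log_pow,
            Real.exp_log (by positivity)]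
        have h3 : (t ^ 5)⁻¹ * ((S R).card : ℝ) ≤ 1 := by
          rw [← div_eq_inv_mul, div_le_one (by positivity)]
          calc ((S R).card : ℝ) ≤ t ^ (39/20 : ℝ) := hA4 R
            _ ≤ t ^ ((5 : ℕ) : ℝ) := Real.rpow_le_rpow_of_exponent_le ht1 (by norm_num)
            _ = t ^ 5 := Real.rpow_natCast t 5
        have h4 : (1/8 : ℝ) ≤ Real.exp (-(2 * ((t ^ 5)⁻¹ * ((S R).card : ℝ)))) := by
          have h5 : Real.exp (-2) ≤ Real.exp (-(2 * ((t ^ 5)⁻¹ * ((S R).card : ℝ)))) := by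
            rw [Real.exp_le_exp]; linarith
          have h6 : (1/8 : ℝ) ≤ Real.exp (-2) := by
            rw [Real.exp_neg, one_div]
            refine inv_anti₀ (Real.exp_pos _) ?_
            have h7 : Real.exp 2 = Real.exp 1 * Real.exp 1 := by rw [← Real.exp_add]; norm_num
            have h8 := Real.exp_one_lt_d9
            have h9 := Real.exp_pos 1
            rw [h7]
            nlinarith
          linarith
        rw [h2]
        have h10 : 2 * (t ^ 8)⁻¹ = (t ^ 7)⁻¹ * (2 / t) := by field_simp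
        rw [h10]
        refine mul_le_mul_of_nonneg_left ?_ ht7p.le
        refine le_trans ?_ h4
        rw [div_le_div_iff₀ ht0 (by norm_num)]
        linarith
      · refine (hELp i).trans ?_
        show _ ≤ ((1/4) ^ (k i) * (t ^ 7)⁻¹) *
          Real.exp (-(2 * ((t ^ 5)⁻¹ * ((SL i).card : ℝ))))
        refine mul_le_mul_of_nonneg_left ?_ (by positivity)
        rw [Real.exp_le_exp]
        have h1 : (t ^ 5)⁻¹ * ((SL i).card : ℝ) ≤ (t ^ 5)⁻¹ * sl t (k i) (μ i) :=
          mul_le_mul_of_nonneg_left (hB3 i) (by positivity)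
        linarith)
  refine ⟨fun v => sg (x v), fun v => sg_pm _, fun R => ?_, fun i => ?_⟩
  · have h1 : x ∉ E R := hx (Sum.inl R)
    simp only [hE, Set.mem_setOf_eq, not_lt] at h1
    exact h1
  · have h1 : x ∉ EL i := hx (Sum.inr i)
    simp only [hEL, Set.mem_setOf_eq, not_lt] at h1
    exact h1

end Pool.Agent.Q271.LD2
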