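import Pool.Agent.H320R2.LD.Chain
import Pool.Agent.Q271.LD2.Iter2
import Pool.Agent.Q271.LD2.Round2

set_option autoImplicit false

/-!
# Signs for matrices with flat rows and columns
-/

open MeasureTheory ProbabilityTheory

namespace Pool.Agent.Q271.LD2

open Pool.Agent.H320R2.LD

/-- The heavy part is bounded, the light rows are small. -/
theorem main2 : ∃ C t0 : ℝ, 0 < C ∧ 2 ≤ t0 ∧ ∀ (t : ℝ), t0 ≤ t →
    ∀ (V W W' : Type) [Fintype V] [Fintype W] [Fintype W'] (A : W → V → ℝ) (B : W' → V → ℝ)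
    (k : W' → ℕ) (μ : W' → ℝ), Adm2 t A → Lgt t B k μ →
    ∃ x : V → ℝ, (∀ v, x v = 1 ∨ x v = -1) ∧ (∀ R, |∑ v, A R v * x v| ≤ C) ∧
      ∀ i, |∑ v, B i v * x v| ≤ 2 * ((9/10) ^ (k i) + μ i) := by
  have mgf := prove_MGF
  have conc := prove_CONC mgf
  have mom := prove_MOM mgf
  have pot1 := prove_POT1
  have pot2 := prove_POT2
  have two := prove_TWO
  have sol := prove_SOL pot1 two
  have mix := prove_MIX
  have cond := prove_COND conc mix
  have shift := prove_SHIFT two pot1 pot2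
  have sh := prove_SH mix
  have mean := prove_MEAN shift sh two sol
  have far := prove_FAR sol conc mom pot2
  have eh := prove_EH sol mom pot2
  have hotp := prove_HOTP sol conc mgf mom pot2
  have ct := prove_CT two pot1
  have loc := prove_LOC hotp prove_PATH prove_CH ct sol cond
  have phase := prove_PHASE2 mix prove_EX sol loc far eh mean prove_GEX conc mom pot1
  obtain ⟨C, t0, hC, ht0, hI⟩ := prove_ITER2 phase
  obtain ⟨t1, ht1, hR⟩ := prove_ROUND2 mix
  obtain ⟨t2, ht2⟩ := Filter.eventually_atTop.mp ev_big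
  refine ⟨C + 10, max t0 (max t1 t2), by linarith, le_trans ht0 (le_max_left _ _), ?_⟩
  intro t ht V W W' _ _ _ A B k μ hA hB
  have hbig : Big t := ht2 t ((le_max_right _ _).trans ((le_max_right _ _).trans ht))
  obtain ⟨a, ha1, ha2, ha3, ha4⟩ := hI t ((le_max_left _ _).trans ht) V W W' A B k μ hA hB
  have hsq : ∀ R, ∑ v, A R v ^ 2 * (1 - |a v|) ≤ 1 / Real.log t := by
    intro R
    refine le_trans (Finset.sum_le_sum fun v _ => ?_) (ha2 R)
    apply mul_le_mul_of_nonneg_left _ (sq_nonneg _)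
    have h0 : 0 ≤ 1 - |a v| := by linarith [ha1 v]
    have h1 : 1 - |a v| ≤ 1 := by linarith [abs_nonneg (a v)]
    calc 1 - |a v| = Real.sqrt ((1 - |a v|) ^ 2) := (Real.sqrt_sq h0).symm
      _ ≤ Real.sqrt (1 - |a v|) := Real.sqrt_le_sqrt (by nlinarith)
  obtain ⟨x, hx1, hx2, hx3⟩ := hR t ((le_max_left _ _).trans ((le_max_right _ _).trans ht))
    V W W' A B k μ a hA hB ha1 hsq
  refine ⟨x, hx1, fun R => ?_, fun i => ?_⟩
  · have h3 : ∑ v, A R v * x v = ∑ v, A R v * (x v - a v) + ∑ v, A R v * a v := by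
      rw [← Finset.sum_add_distrib]
      exact Finset.sum_congr rfl fun v _ => by ring
    rw [h3]
    refine (abs_add_le _ _).trans ?_
    linarith [hx2 R, ha3 R]
  · have h3 : ∑ v, B i v * x v = ∑ v, B i v * (x v - a v) + ∑ v, B i v * a v := by
      rw [← Finset.sum_add_distrib]
      exact Finset.sum_congr rfl fun v _ => by ring
    rw [h3]
    refine (abs_add_le _ _).trans ?_
    have h4 := hx3 i
    have h5 := ha4 i
    have h6 : dl t (k i) (μ i) ≤ (9/10) ^ (k i) + μ i := by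
      unfold dl
      have hμ := (hB.1 i).1
      have e1 : t ^ (-(1/200) : ℝ) ≤ 1 :=
        Real.rpow_le_one_of_one_le_of_nonpos hbig.one (by norm_num)
      have e2 : (0:ℝ) < (9/10) ^ (k i) := by positivity
      exact mul_le_of_le_one_left (by positivity) e1
    linarith

/-- dyadic scale of a positive real below `θ` -/
theorem exists_scale (θ x : ℝ) (hθ : 0 < θ) (hx : 0 < x) (hxθ : x ≤ θ) :
    ∃ k : ℕ, θ * (1/2) ^ (k + 1) < x ∧ x ≤ θ * (1/2) ^ k := by
  obtain ⟨n, hn1, hn2⟩ := exists_nat_pow_near_of_lt_one (x := x / θ) (y := 1/2)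
    (div_pos hx hθ) ((div_le_one hθ).2 hxθ) (by norm_num) (by norm_num)
  refine ⟨n, ?_, ?_⟩
  · rw [lt_div_iff₀ hθ] at hn1
    linarith
  · rw [div_le_iff₀ hθ] at hn2
    linarith

open Classical in
/-- number of terms of size at least `θ` -/
theorem card_le_of_sum {ι : Type} [Fintype ι] (f : ι → ℝ) (θ S : ℝ) (hθ : 0 < θ)
    (hf : ∀ i, 0 ≤ f i) (hS : ∑ i, f i ≤ S) (T : Finset ι) (hT : ∀ i ∈ T, θ ≤ f i) :
    (T.card : ℝ) ≤ S / θ := by
  rw [le_div_iff₀ hθ]
  calc (T.card : ℝ) * θ = ∑ _i ∈ T, θ := by rw [Finset.sum_const, nsmul_eq_mul]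
    _ ≤ ∑ i ∈ T, f i := Finset.sum_le_sum hT
    _ ≤ ∑ i, f i := Finset.sum_le_univ_sum_of_nonneg hf
    _ ≤ S := hS

open Classical in
/-- Signs for flat matrices, large parameter. -/
theorem flat_large : ∃ C t0 : ℝ, 0 < C ∧ 2 ≤ t0 ∧ ∀ (t : ℝ), t0 ≤ t →
    ∀ (V W : Type) [Fintype V] [Fintype W] (A : W → V → ℝ),
    (∀ R v, |A R v| ≤ t ^ (-(1/2) : ℝ)) → (∀ R, ∑ v, |A R v| ≤ t ^ (1/2 : ℝ)) →
    (∀ v, ∑ R, |A R v| ≤ t ^ (1/2 : ℝ)) →
    ∃ x : V → ℝ, (∀ v, x v = 1 ∨ x v = -1) ∧ ∀ R, |∑ v, A R v * x v| ≤ C := by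
  obtain ⟨C, t0, hC, ht0, hmain⟩ := main2
  refine ⟨C + 26, t0, by linarith, ht0, ?_⟩
  intro t ht V W _ _ A hA hrow hcol
  have ht1 : 1 ≤ t := by linarith
  have htp : 0 < t := by linarith
  set θ : ℝ := t ^ (-(29/20) : ℝ) with hθdef
  have hθ : 0 < θ := Real.rpow_pos_of_pos htp _
  -- scales
  have hsc : ∀ R v, ∃ k : ℕ, (A R v ≠ 0 ∧ |A R v| < θ) →
      θ * (1/2) ^ (k + 1) < |A R v| ∧ |A R v| ≤ θ * (1/2) ^ k := by
    intro R v
    by_cases h : A R v ≠ 0 ∧ |A R v| < θ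
    · obtain ⟨k, hk⟩ := exists_scale θ |A R v| hθ (abs_pos.2 h.1) h.2.le
      exact ⟨k, fun _ => hk⟩
    · exact ⟨0, fun h' => absurd h' h⟩
  choose kk hkk using hsc
  set K : ℕ := (Finset.univ.sup fun R : W => Finset.univ.sup fun v : V => kk R v) + 1 with hK
  have hkK : ∀ R v, kk R v < K := by
    intro R v
    rw [hK]
    refine Nat.lt_succ_of_le ?_
    refine le_trans ?_ (Finset.le_sup (f := fun R : W => Finset.univ.sup fun v : V => kk R v)
      (Finset.mem_univ R))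
    exact Finset.le_sup (f := fun v : V => kk R v) (Finset.mem_univ v)
  -- the parts
  set H : W → V → ℝ := fun R v => if θ ≤ |A R v| then A R v else 0 with hH
  set B : W × Fin K → V → ℝ := fun i v =>
    if A i.1 v ≠ 0 ∧ |A i.1 v| < θ ∧ kk i.1 v = i.2.val then A i.1 v else 0 with hB
  set k : W × Fin K → ℕ := fun i => i.2.val with hk
  set μ : W × Fin K → ℝ := fun i => (∑ v, |B i v|) / t ^ (1/2 : ℝ) + (1/2) ^ (k i) with hμ
  have hs0 : 0 < t ^ (1/2 : ℝ) := Real.rpow_pos_of_pos htp _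
  have hHabs : ∀ R v, |H R v| ≤ |A R v| := by
    intro R v
    simp only [hH]
    split_ifs
    · exact le_rfl
    · simp
  have hBabs : ∀ i v, |B i v| ≤ |A i.1 v| := by
    intro i v
    simp only [hB]
    split_ifs
    · exact le_rfl
    · simp
  have hBne : ∀ i v, B i v ≠ 0 → θ * (1/2) ^ (k i + 1) < |B i v| ∧
      |B i v| ≤ θ * (1/2) ^ (k i) := by
    intro i v hne
    simp only [hB] at hne ⊢
    split_ifs at hne ⊢ with hc
    · have h1 := hkk i.1 v ⟨hc.1, hc.2.1⟩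
      rw [hc.2.2] at h1
      exact h1
    · exact absurd rfl hne
  have hBsum : ∀ i, ∑ v, |B i v| ≤ t ^ (1/2 : ℝ) := fun i =>
    (Finset.sum_le_sum fun v _ => hBabs i v).trans (hrow i.1)
  have hBcolsum : ∀ v (κ : Fin K), ∑ R, |B (R, κ) v| ≤ t ^ (1/2 : ℝ) := fun v κ =>
    (Finset.sum_le_sum fun R _ => hBabs (R, κ) v).trans (hcol v)
  have hAdm : Adm2 t H := by
    have hsq : ∀ R v, H R v ^ 2 ≤ |A R v| * t ^ (-(1/2) : ℝ) := by
      intro R v
      rw [← sq_abs, sq]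
      exact mul_le_mul (hHabs R v) ((hHabs R v).trans (hA R v)) (abs_nonneg _) (abs_nonneg _)
    have hpr : t ^ (1/2 : ℝ) * t ^ (-(1/2) : ℝ) = 1 := by
      rw [← Real.rpow_add htp]; norm_num
    have hsup : t ^ (1/2 : ℝ) / θ = t ^ (39/20 : ℝ) := by
      rw [hθdef, ← Real.rpow_sub htp]; norm_num
    refine ⟨fun R v => ?_, fun R => ?_, fun v => ?_, fun R => ?_, fun v => ?_,
      t ^ (1/2 : ℝ), t ^ (1/2 : ℝ), hs0.le, hs0.le, fun R => ?_, fun v => ?_, ?_⟩
    · have h1 : H R v ^ 2 ≤ (t ^ (-(1/2) : ℝ)) ^ 2 := by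
        rw [← sq_abs]
        exact pow_le_pow_left₀ (abs_nonneg _) ((hHabs R v).trans (hA R v)) 2
      have h2 : (t ^ (-(1/2) : ℝ)) ^ 2 * t = 1 := by
        rw [← Real.rpow_natCast, ← Real.rpow_mul htp.le]
        nth_rewrite 2 [← Real.rpow_one t]
        rw [← Real.rpow_add htp]; norm_num
      calc H R v ^ 2 * t ≤ (t ^ (-(1/2) : ℝ)) ^ 2 * t := mul_le_mul_of_nonneg_right h1 htp.le
        _ = 1 := h2
    · calc ∑ v, H R v ^ 2 ≤ ∑ v, |A R v| * t ^ (-(1/2) : ℝ) :=
            Finset.sum_le_sum fun v _ => hsq R v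
        _ = (∑ v, |A R v|) * t ^ (-(1/2) : ℝ) := by rw [Finset.sum_mul]
        _ ≤ t ^ (1/2 : ℝ) * t ^ (-(1/2) : ℝ) :=
            mul_le_mul_of_nonneg_right (hrow R) (by positivity)
        _ = 1 := hpr
    · calc ∑ R, H R v ^ 2 ≤ ∑ R, |A R v| * t ^ (-(1/2) : ℝ) :=
            Finset.sum_le_sum fun R _ => hsq R v
        _ = (∑ R, |A R v|) * t ^ (-(1/2) : ℝ) := by rw [Finset.sum_mul]
        _ ≤ t ^ (1/2 : ℝ) * t ^ (-(1/2) : ℝ) :=
            mul_le_mul_of_nonneg_right (hcol v) (by positivity)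
        _ = 1 := hpr
    · rw [← hsup]
      refine card_le_of_sum (fun v => |A R v|) θ _ hθ (fun v => abs_nonneg _) (hrow R) _
        (fun v hv => ?_)
      have hv2 := (Finset.mem_filter.1 hv).2
      simp only [hH] at hv2
      by_contra hc
      rw [if_neg hc] at hv2
      exact hv2 rfl
    · rw [← hsup]
      refine card_le_of_sum (fun R => |A R v|) θ _ hθ (fun R => abs_nonneg _) (hcol v) _
        (fun R hR => ?_)
      have hv2 := (Finset.mem_filter.1 hR).2
      simp only [hH] at hv2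
      by_contra hc
      rw [if_neg hc] at hv2
      exact hv2 rfl
    · exact (Finset.sum_le_sum fun v _ => hHabs R v).trans (hrow R)
    · exact (Finset.sum_le_sum fun R _ => hHabs R v).trans (hcol v)
    · rw [← Real.rpow_add htp]
      exact Real.rpow_le_rpow_of_exponent_le ht1 (by norm_num)
  have hLgt : Lgt t B k μ := by
    refine ⟨fun i => ⟨?_, ?_⟩, fun i => ?_, fun i => ?_, fun v κ => ?_, fun i => ?_⟩
    · have h1 : 0 ≤ ∑ v, |B i v| := Finset.sum_nonneg fun v _ => abs_nonneg _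
      have h2 : (0:ℝ) < (1/2) ^ (k i) := by positivity
      have h3 : 0 ≤ (∑ v, |B i v|) / t ^ (1/2 : ℝ) := by positivity
      show 0 < (∑ v, |B i v|) / t ^ (1/2 : ℝ) + (1/2) ^ (k i)
      linarith
    · have h1 : (∑ v, |B i v|) / t ^ (1/2 : ℝ) ≤ 1 := (div_le_one hs0).2 (hBsum i)
      have h2 : (1/2 : ℝ) ^ (k i) ≤ 1 := pow_le_one₀ (by norm_num) (by norm_num)
      show (∑ v, |B i v|) / t ^ (1/2 : ℝ) + (1/2) ^ (k i) ≤ 2
      linarith
    · have h1 : ∀ v, B i v ^ 2 ≤ (θ * (1/2) ^ (k i)) * |B i v| := by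
        intro v
        by_cases h0 : B i v = 0
        · rw [h0]; simp
        · rw [← sq_abs, sq]
          exact mul_le_mul_of_nonneg_right (hBne i v h0).2 (abs_nonneg _)
      have h2 : ∑ v, |B i v| ≤ t ^ (1/2 : ℝ) * μ i := by
        have h3 : (0:ℝ) < (1/2) ^ (k i) := by positivity
        have h4 : t ^ (1/2 : ℝ) * ((∑ v, |B i v|) / t ^ (1/2 : ℝ)) = ∑ v, |B i v| := by
          field_simp
        show ∑ v, |B i v| ≤ t ^ (1/2 : ℝ) * ((∑ v, |B i v|) / t ^ (1/2 : ℝ) + (1/2) ^ (k i))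
        rw [mul_add, h4]
        have := mul_pos hs0 h3
        linarith
      have h5 : θ * t ^ (1/2 : ℝ) = t ^ (-(19/20) : ℝ) := by
        rw [hθdef, ← Real.rpow_add htp]; norm_num
      calc ∑ v, B i v ^ 2 ≤ ∑ v, (θ * (1/2) ^ (k i)) * |B i v| :=
            Finset.sum_le_sum fun v _ => h1 v
        _ = (θ * (1/2) ^ (k i)) * ∑ v, |B i v| := by rw [Finset.mul_sum]
        _ ≤ (θ * (1/2) ^ (k i)) * (t ^ (1/2 : ℝ) * μ i) :=
            mul_le_mul_of_nonneg_left h2 (by positivity)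
        _ = (θ * t ^ (1/2 : ℝ)) * (1/2) ^ (k i) * μ i := by ring
        _ = nl t (k i) (μ i) := by rw [h5]; rfl
    · have h2 : ∑ v, |B i v| ≤ t ^ (1/2 : ℝ) * μ i := by
        have h3 : (0:ℝ) < (1/2) ^ (k i) := by positivity
        have h4 : t ^ (1/2 : ℝ) * ((∑ v, |B i v|) / t ^ (1/2 : ℝ)) = ∑ v, |B i v| := by
          field_simp
        show ∑ v, |B i v| ≤ t ^ (1/2 : ℝ) * ((∑ v, |B i v|) / t ^ (1/2 : ℝ) + (1/2) ^ (k i))
        rw [mul_add, h4]
        have := mul_pos hs0 h3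
        linarith
      have h5 := card_le_of_sum (fun v => |B i v|) (θ * (1/2) ^ (k i + 1)) _ (by positivity)
        (fun v => abs_nonneg _) h2 (Finset.univ.filter (fun v => B i v ≠ 0))
        (fun v hv => (hBne i v (Finset.mem_filter.1 hv).2).1.le)
      refine h5.trans (le_of_eq ?_)
      have h6 : (2:ℝ) ^ (k i + 1) * (1/2) ^ (k i + 1) = 1 := by rw [← mul_pow]; norm_num
      have h7 : t ^ (1/2 : ℝ) = t ^ (39/20 : ℝ) * θ := by
        rw [hθdef, ← Real.rpow_add htp]; norm_num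
      rw [div_eq_iff (by positivity), h7]
      unfold sl
      calc t ^ (39/20 : ℝ) * θ * μ i
          = t ^ (39/20 : ℝ) * θ * μ i * (2 ^ (k i + 1) * (1/2) ^ (k i + 1)) := by rw [h6, mul_one]
        _ = _ := by rw [pow_succ (2:ℝ)]; ring
    · by_cases hκ : κ < K
      · have h5 := card_le_of_sum (fun R => |B (R, ⟨κ, hκ⟩) v|) (θ * (1/2) ^ (κ + 1)) _
          (by positivity) (fun R => abs_nonneg _) (hBcolsum v ⟨κ, hκ⟩)
          (Finset.univ.filter (fun R => B (R, ⟨κ, hκ⟩) v ≠ 0))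
          (fun R hR => (hBne (R, ⟨κ, hκ⟩) v (Finset.mem_filter.1 hR).2).1.le)
        have h8 : (Finset.univ.filter (fun i => B i v ≠ 0 ∧ k i = κ)).card ≤
            (Finset.univ.filter (fun R => B (R, ⟨κ, hκ⟩) v ≠ 0)).card := by
          refine Finset.card_le_card_of_injOn (fun i => i.1) ?_ ?_
          · intro i hi
            have hi2 := (Finset.mem_filter.1 hi).2
            have hi3 : i = (i.1, ⟨κ, hκ⟩) := by
              refine Prod.ext rfl (Fin.ext hi2.2)
            rw [Finset.mem_coe, Finset.mem_filter]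
            refine ⟨Finset.mem_univ _, ?_⟩
            rw [← hi3]
            exact hi2.1
          · intro i hi j hj hij
            have hi2 := (Finset.mem_filter.1 hi).2
            have hj2 := (Finset.mem_filter.1 hj).2
            refine Prod.ext hij (Fin.ext ?_)
            have e1 : i.2.val = κ := hi2.2
            have e2 : j.2.val = κ := hj2.2
            rw [e1, e2]
        have h9 : ((Finset.univ.filter (fun i => B i v ≠ 0 ∧ k i = κ)).card : ℝ) ≤
            ((Finset.univ.filter (fun R => B (R, ⟨κ, hκ⟩) v ≠ 0)).card : ℝ) := by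
          exact_mod_cast h8
        refine h9.trans (h5.trans (le_of_eq ?_))
        have h6 : (2:ℝ) ^ (κ + 1) * (1/2) ^ (κ + 1) = 1 := by rw [← mul_pow]; norm_num
        have h7 : t ^ (1/2 : ℝ) = t ^ (39/20 : ℝ) * θ := by
          rw [hθdef, ← Real.rpow_add htp]; norm_num
        rw [div_eq_iff (by positivity), h7]
        calc t ^ (39/20 : ℝ) * θ
            = t ^ (39/20 : ℝ) * θ * (2 ^ (κ + 1) * (1/2) ^ (κ + 1)) := by rw [h6, mul_one]
          _ = _ := by rw [pow_succ (2:ℝ)]; ring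
      · have h1 : Finset.univ.filter (fun i => B i v ≠ 0 ∧ k i = κ) = ∅ := by
          rw [Finset.filter_eq_empty_iff]
          intro i _ hi
          have e1 : i.2.val = κ := hi.2
          exact hκ (e1 ▸ i.2.isLt)
        rw [h1]
        simp only [Finset.card_empty, Nat.cast_zero]
        positivity
    · have h3 : (0:ℝ) < (1/2) ^ (k i) := by positivity
      have h4 : t ^ (1/2 : ℝ) * ((∑ v, |B i v|) / t ^ (1/2 : ℝ)) = ∑ v, |B i v| := by
        field_simp
      rw [Real.sqrt_eq_rpow]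
      show ∑ v, |B i v| ≤ t ^ (1/2 : ℝ) * ((∑ v, |B i v|) / t ^ (1/2 : ℝ) + (1/2) ^ (k i))
      rw [mul_add, h4]
      have := mul_pos hs0 h3
      linarith
  obtain ⟨x, hx1, hx2, hx3⟩ := hmain t ht V W (W × Fin K) H B k μ hAdm hLgt
  refine ⟨x, hx1, fun R => ?_⟩
  have hdec : ∀ v, A R v = H R v + ∑ κ : Fin K, B (R, κ) v := by
    intro v
    by_cases h1 : θ ≤ |A R v|
    · have e1 : H R v = A R v := by simp only [hH, if_pos h1]
      have e2 : ∀ κ : Fin K, B (R, κ) v = 0 := by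
        intro κ
        simp only [hB]
        rw [if_neg]
        rintro ⟨-, h2, -⟩
        exact absurd h2 (not_lt.2 h1)
      rw [e1, Finset.sum_eq_zero fun κ _ => e2 κ, add_zero]
    · have e1 : H R v = 0 := by simp only [hH, if_neg h1]
      rw [e1, zero_add]
      by_cases h0 : A R v = 0
      · rw [h0, Finset.sum_eq_zero]
        intro κ _
        simp only [hB]
        rw [if_neg]
        rintro ⟨h2, -, -⟩
        exact h2 h0
      · rw [Finset.sum_eq_single (⟨kk R v, hkK R v⟩ : Fin K)]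
        · simp only [hB]
          rw [if_pos ⟨h0, not_le.1 h1, trivial⟩]
        · intro κ _ hne
          simp only [hB]
          rw [if_neg]
          rintro ⟨-, -, h3⟩
          exact hne (Fin.ext h3.symm)
        · intro h
          exact absurd (Finset.mem_univ _) h
  have hsum : ∑ v, A R v * x v = ∑ v, H R v * x v + ∑ κ : Fin K, ∑ v, B (R, κ) v * x v := by
    rw [Finset.sum_comm, ← Finset.sum_add_distrib]
    refine Finset.sum_congr rfl fun v _ => ?_
    rw [hdec v, add_mul, Finset.sum_mul]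
  rw [hsum]
  refine (abs_add_le _ _).trans ?_
  have h1 : |∑ κ : Fin K, ∑ v, B (R, κ) v * x v| ≤ 26 := by
    refine (Finset.abs_sum_le_sum_abs _ _).trans ?_
    have h2 : ∑ κ : Fin K, |∑ v, B (R, κ) v * x v| ≤
        ∑ κ : Fin K, 2 * ((9/10 : ℝ) ^ (κ : ℕ) + μ (R, κ)) :=
      Finset.sum_le_sum fun κ _ => hx3 (R, κ)
    refine h2.trans ?_
    rw [← Finset.mul_sum, Finset.sum_add_distrib]
    have h3 : ∑ κ : Fin K, (9/10 : ℝ) ^ (κ : ℕ) ≤ 10 := by
      rw [Fin.sum_univ_eq_sum_range (fun j => (9/10 : ℝ) ^ j) K,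
        geom_sum_eq (by norm_num)]
      have : (0:ℝ) < (9/10) ^ K := by positivity
      have e : ((9/10 : ℝ) ^ K - 1) / (9/10 - 1) = 10 - 10 * (9/10) ^ K := by ring
      rw [e]; linarith
    have h4 : ∑ κ : Fin K, (1/2 : ℝ) ^ (κ : ℕ) ≤ 2 := by
      rw [Fin.sum_univ_eq_sum_range (fun j => (1/2 : ℝ) ^ j) K,
        geom_sum_eq (by norm_num)]
      have : (0:ℝ) < (1/2) ^ K := by positivity
      have e : ((1/2 : ℝ) ^ K - 1) / (1/2 - 1) = 2 - 2 * (1/2) ^ K := by ring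
      rw [e]; linarith
    have h5 : ∑ κ : Fin K, (∑ v, |B (R, κ) v|) / t ^ (1/2 : ℝ) ≤ 1 := by
      rw [← Finset.sum_div, div_le_one hs0, Finset.sum_comm]
      refine le_trans (Finset.sum_le_sum fun v _ => ?_) (hrow R)
      -- only one scale is active
      calc ∑ κ : Fin K, |B (R, κ) v|
          ≤ ∑ κ : Fin K, (if κ = (⟨kk R v, hkK R v⟩ : Fin K) then |A R v| else 0) := by
            refine Finset.sum_le_sum fun κ _ => ?_
            by_cases hκ : κ = (⟨kk R v, hkK R v⟩ : Fin K)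
            · rw [if_pos hκ]; exact hBabs (R, κ) v
            · rw [if_neg hκ]
              have : B (R, κ) v = 0 := by
                simp only [hB]
                rw [if_neg]
                rintro ⟨-, -, h3⟩
                exact hκ (Fin.ext h3.symm)
              rw [this, abs_zero]
        _ = |A R v| := by rw [Finset.sum_ite_eq' Finset.univ]; simp
    have h6 : ∑ κ : Fin K, μ (R, κ) ≤ 3 := by
      have : ∑ κ : Fin K, μ (R, κ) = ∑ κ : Fin K, (∑ v, |B (R, κ) v|) / t ^ (1/2 : ℝ) +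
          ∑ κ : Fin K, (1/2 : ℝ) ^ (κ : ℕ) := by
        rw [← Finset.sum_add_distrib]
      rw [this]
      linarith
    linarith
  linarith [hx2 R]

/-- Signs for flat matrices. -/
theorem flat : ∃ C : ℝ, 0 < C ∧ ∀ (t : ℝ), 1 ≤ t →
    ∀ (V W : Type) [Fintype V] [Fintype W] (A : W → V → ℝ),
    (∀ R v, |A R v| ≤ t ^ (-(1/2) : ℝ)) → (∀ R, ∑ v, |A R v| ≤ t ^ (1/2 : ℝ)) →
    (∀ v, ∑ R, |A R v| ≤ t ^ (1/2 : ℝ)) →
    ∃ x : V → ℝ, (∀ v, x v = 1 ∨ x v = -1) ∧ ∀ R, |∑ v, A R v * x v| ≤ C := by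
  obtain ⟨C, t0, hC, ht0, h⟩ := flat_large
  refine ⟨max C (t0 ^ (1/2 : ℝ)), lt_of_lt_of_le hC (le_max_left _ _), ?_⟩
  intro t ht V W _ _ A hA hrow hcol
  by_cases hbig : t0 ≤ t
  · obtain ⟨x, hx1, hx2⟩ := h t hbig V W A hA hrow hcol
    exact ⟨x, hx1, fun R => (hx2 R).trans (le_max_left _ _)⟩
  · refine ⟨fun _ => 1, fun _ => Or.inl rfl, fun R => ?_⟩
    refine le_trans ?_ (le_max_right _ _)
    calc |∑ v, A R v * 1| ≤ ∑ v, |A R v * 1| := Finset.abs_sum_le_sum_abs _ _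
      _ = ∑ v, |A R v| := by simp
      _ ≤ t ^ (1/2 : ℝ) := hrow R
      _ ≤ t0 ^ (1/2 : ℝ) :=
          Real.rpow_le_rpow (by linarith) (not_le.1 hbig).le (by norm_num)

end Pool.Agent.Q271.LD2
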