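import Pool.Agent.H320R2.LD.PARAM

set_option autoImplicit false

/-!
# Numerical inequalities for one phase with light rows
-/

open Filter

namespace Pool.Agent.Q271.LD2

open Pool.Agent.H320R2.LD.PARAM

noncomputable section

/-- `t^0.91` -/
def T1 (t : ℝ) : ℝ := t ^ (91/100 : ℝ)
/-- `t^0.92` -/
def T2 (t : ℝ) : ℝ := t ^ (92/100 : ℝ)
/-- `t^0.93` -/
def T3 (t : ℝ) : ℝ := t ^ (93/100 : ℝ)
/-- `t^0.94` -/
def T4 (t : ℝ) : ℝ := t ^ (94/100 : ℝ)

/-- the basic largeness facts -/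
def Big (t : ℝ) : Prop :=
  (10 : ℝ) ^ 12 ≤ t ∧ 2 * (1 + 2 * (400 : ℝ)) ≤ t ^ (1/16 : ℝ) ∧ (10 : ℝ) ^ 15 ≤ t ^ (1/100 : ℝ) ∧
  160 * 160000 * Real.log t ≤ t ^ (1/8 : ℝ) ∧ 16 * 160000 ≤ t ^ (1/40 : ℝ) ∧
  11 * Real.log t ≤ t ^ (1/200 : ℝ) ∧ 8 ≤ t ^ (1/25 : ℝ)

theorem ev_big : ∀ᶠ t : ℝ in atTop, Big t := by
  filter_upwards [eventually_ge_atTop ((10:ℝ) ^ 12), ev_rpow (1/16) (2 * (1 + 2 * 400)) (by norm_num),
    ev_rpow (1/100) (10 ^ 15) (by norm_num), ev_log (1/8) (160 * 160000) (by norm_num) (by norm_num),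
    ev_rpow (1/40) (16 * 160000) (by norm_num), ev_log (1/200) 11 (by norm_num) (by norm_num),
    ev_rpow (1/25) 8 (by norm_num)] with t h1 h2 h3 h4 h5 h6 h7
  exact ⟨h1, h2, h3, h4, h5, h6, h7⟩

section
variable {t : ℝ} (h : Big t)
include h

theorem Big.one : 1 ≤ t := by
  have := h.1
  linarith [show (1:ℝ) ≤ 10 ^ 12 by norm_num]

theorem Big.pos : 0 < t := by linarith [h.one]

theorem Big.rho : (10 : ℝ) ^ 15 ≤ t ^ (1/100 : ℝ) := h.2.2.1

theorem Big.T21 : T2 t = t ^ (1/100 : ℝ) * T1 t := by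
  unfold T1 T2
  rw [← Real.rpow_add h.pos]; norm_num

theorem Big.T32 : T3 t = t ^ (1/100 : ℝ) * T2 t := by
  unfold T3 T2
  rw [← Real.rpow_add h.pos]; norm_num

theorem Big.T43 : T4 t = t ^ (1/100 : ℝ) * T3 t := by
  unfold T3 T4
  rw [← Real.rpow_add h.pos]; norm_num

theorem Big.t4 : t ^ (1/100 : ℝ) * T4 t ≤ t := by
  unfold T4
  rw [← Real.rpow_add h.pos]
  calc t ^ (1/100 + 94/100 : ℝ) ≤ t ^ (1:ℝ) :=
        Real.rpow_le_rpow_of_exponent_le h.one (by norm_num)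
    _ = t := Real.rpow_one t

theorem Big.T1big : (10 : ℝ) ^ 15 ≤ T1 t := by
  refine h.rho.trans ?_
  unfold T1
  exact Real.rpow_le_rpow_of_exponent_le h.one (by norm_num)

theorem Big.T1pos : 0 < T1 t := lt_of_lt_of_le (by norm_num) h.T1big

theorem Big.c21 : 1000 * T1 t ≤ T2 t := by
  rw [h.T21]
  exact mul_le_mul_of_nonneg_right (le_trans (by norm_num) h.rho) h.T1pos.le

theorem Big.T2pos : 0 < T2 t := by linarith [h.c21, h.T1pos]

theorem Big.c32 : 1000 * T2 t ≤ T3 t := by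
  rw [h.T32]
  exact mul_le_mul_of_nonneg_right (le_trans (by norm_num) h.rho) h.T2pos.le

theorem Big.T3pos : 0 < T3 t := by linarith [h.c32, h.T2pos]

theorem Big.c43 : (10 : ℝ) ^ 15 * T3 t ≤ T4 t := by
  rw [h.T43]
  exact mul_le_mul_of_nonneg_right h.rho h.T3pos.le

theorem Big.T4pos : 0 < T4 t := by nlinarith [h.c43, h.T3pos]

theorem Big.ct4 : (10 : ℝ) ^ 15 * T4 t ≤ t :=
  le_trans (mul_le_mul_of_nonneg_right h.rho h.T4pos.le) h.t4

theorem Big.L1 : 1 ≤ Real.log t := by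
  rw [Real.le_log_iff_exp_le h.pos]
  have := Real.exp_one_lt_d9
  have := h.1
  linarith [show (3:ℝ) ≤ 10 ^ 12 by norm_num]

theorem Big.Lsq : 121 * Real.log t ^ 2 ≤ t ^ (1/100 : ℝ) := by
  have h1 := h.2.2.2.2.2.1
  have h2 : t ^ (1/100 : ℝ) = (t ^ (1/200 : ℝ)) ^ 2 := by
    rw [← Real.rpow_natCast, ← Real.rpow_mul h.pos.le]; norm_num
  rw [h2]
  calc 121 * Real.log t ^ 2 = (11 * Real.log t) ^ 2 := by ring
    _ ≤ _ := pow_le_pow_left₀ (by have := h.L1; positivity) h1 2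

theorem Big.L_le : 100 * Real.log t ≤ T1 t := by
  have h1 := h.Lsq
  have h2 := h.L1
  have h3 : t ^ (1/100 : ℝ) ≤ T1 t :=
    Real.rpow_le_rpow_of_exponent_le h.one (by norm_num)
  nlinarith

theorem Big.expL : Real.exp (Real.log t) = t := Real.exp_log h.pos

/-- `t^(39/20) ≤ exp (2 log t)` -/
theorem Big.pow39 : t ^ (39/20 : ℝ) ≤ Real.exp (2 * Real.log t) := by
  rw [mul_comm, ← Real.rpow_def_of_pos h.pos]
  exact Real.rpow_le_rpow_of_exponent_le h.one (by norm_num)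

end

theorem exp_third : Real.exp (1 / 3) ≤ 3 / 2 := by
  have h1 : Real.exp (1 / 3) ^ 3 ≤ (3 / 2 : ℝ) ^ 3 := by
    rw [← Real.exp_nat_mul]
    have := Real.exp_one_lt_d9
    norm_num
    linarith
  exact le_of_pow_le_pow_left₀ (by norm_num) (by norm_num) h1

theorem two_pow_le (k : ℕ) : (2 : ℝ) ^ k ≤ Real.exp k := by
  have h1 : (2 : ℝ) ≤ Real.exp 1 := by linarith [Real.add_one_le_exp (1:ℝ)]
  calc (2 : ℝ) ^ k ≤ Real.exp 1 ^ k := pow_le_pow_left₀ (by norm_num) h1 k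
    _ = Real.exp k := by rw [← Real.exp_nat_mul, mul_one]

theorem quarter_pow_ge (k : ℕ) : Real.exp (-(2 * k)) ≤ (1 / 4 : ℝ) ^ k := by
  have h1 : (2 : ℝ) ≤ Real.exp 1 := by linarith [Real.add_one_le_exp (1:ℝ)]
  have h2 : Real.exp (-2) ≤ 1 / 4 := by
    rw [Real.exp_neg, one_div]
    refine inv_anti₀ (by norm_num) ?_
    have : Real.exp 2 = Real.exp 1 * Real.exp 1 := by rw [← Real.exp_add]; norm_num
    nlinarith
  calc Real.exp (-(2 * k)) = Real.exp (-2) ^ k := by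
        rw [← Real.exp_nat_mul]; congr 1; ring
    _ ≤ (1 / 4 : ℝ) ^ k := pow_le_pow_left₀ (Real.exp_pos _).le h2 k

theorem threehalf_ge (k : ℕ) : Real.exp (k / 3) ≤ (3 / 2 : ℝ) ^ k := by
  calc Real.exp (k / 3) = Real.exp (1 / 3) ^ k := by
        rw [← Real.exp_nat_mul]; congr 1; ring
    _ ≤ _ := pow_le_pow_left₀ (Real.exp_pos _).le exp_third k

theorem threehalf_lin (k : ℕ) : 1 + (k : ℝ) / 2 ≤ (3 / 2 : ℝ) ^ k := by
  have h := one_add_mul_le_pow (a := (1/2 : ℝ)) (by norm_num) k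
  have h2 : (1 + 1/2 : ℝ) = 3 / 2 := by norm_num
  rw [h2] at h
  linarith

/-- allowed deviation of a light row in one step -/
def dl (t : ℝ) (k : ℕ) (μ : ℝ) : ℝ := t ^ (-(1/200) : ℝ) * ((9/10) ^ k + μ)

/-- variance bound of a light row -/
def nl (t : ℝ) (k : ℕ) (μ : ℝ) : ℝ := t ^ (-(19/20) : ℝ) * (1/2) ^ k * μ

/-- support bound of a light row -/
def sl (t : ℝ) (k : ℕ) (μ : ℝ) : ℝ := 2 * t ^ (39/20 : ℝ) * 2 ^ k * μ

theorem dl_pos {t : ℝ} (ht : 0 < t) (k : ℕ) (μ : ℝ) (hμ : 0 < μ) : 0 < dl t k μ := by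
  unfold dl; positivity

theorem nl_pos {t : ℝ} (ht : 0 < t) (k : ℕ) (μ : ℝ) (hμ : 0 < μ) : 0 < nl t k μ := by
  unfold nl; positivity

theorem sq200 {t : ℝ} (ht : 0 < t) : (t ^ (-(1/200) : ℝ)) ^ 2 = t ^ (-(1/100) : ℝ) := by
  rw [← Real.rpow_natCast, ← Real.rpow_mul ht.le]; norm_num

theorem ratA {t : ℝ} (ht : 0 < t) (k : ℕ) (μ : ℝ) (hμ : 0 < μ) (hμ2 : μ ≤ 2) :
    T4 t * (3/2) ^ k / 2 * nl t k μ ≤ dl t k μ ^ 2 := by
  have h1 : dl t k μ ^ 2 = t ^ (-(1/100) : ℝ) * ((9/10) ^ k + μ) ^ 2 := by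
    unfold dl
    rw [mul_pow, sq200 ht]
  have h2 : T4 t * t ^ (-(19/20) : ℝ) = t ^ (-(1/100) : ℝ) := by
    unfold T4
    rw [← Real.rpow_add ht]; norm_num
  have h3 : T4 t * (3/2) ^ k / 2 * nl t k μ = t ^ (-(1/100) : ℝ) * ((3/4 : ℝ) ^ k * (μ / 2)) := by
    unfold nl
    have h4 : (3/4 : ℝ) ^ k = (3/2) ^ k * (1/2) ^ k := by rw [← mul_pow]; norm_num
    rw [h4, ← h2]; ring
  rw [h1, h3]
  refine mul_le_mul_of_nonneg_left ?_ (by positivity)
  have h5 : (3/4 : ℝ) ^ k ≤ ((9/10 : ℝ) ^ k) ^ 2 := by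
    rw [← pow_mul, mul_comm, pow_mul]
    exact pow_le_pow_left₀ (by norm_num) (by norm_num) k
  have h6 : (0:ℝ) < (9/10) ^ k := by positivity
  have h7 : (0:ℝ) < (3/4) ^ k := by positivity
  calc (3/4 : ℝ) ^ k * (μ / 2) ≤ (3/4 : ℝ) ^ k * 1 := by
        refine mul_le_mul_of_nonneg_left (by linarith) h7.le
    _ ≤ ((9/10 : ℝ) ^ k) ^ 2 := by rw [mul_one]; exact h5
    _ ≤ ((9/10) ^ k + μ) ^ 2 := pow_le_pow_left₀ h6.le (by linarith) 2

theorem ratB {t : ℝ} (ht : 0 < t) (k : ℕ) (μ : ℝ) (hμ : 0 < μ) :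
    T4 t * 2 ^ k * μ * nl t k μ ≤ dl t k μ ^ 2 := by
  have h1 : dl t k μ ^ 2 = t ^ (-(1/100) : ℝ) * ((9/10) ^ k + μ) ^ 2 := by
    unfold dl
    rw [mul_pow, sq200 ht]
  have h2 : T4 t * t ^ (-(19/20) : ℝ) = t ^ (-(1/100) : ℝ) := by
    unfold T4
    rw [← Real.rpow_add ht]; norm_num
  have h4 : (2 : ℝ) ^ k * (1/2) ^ k = 1 := by rw [← mul_pow]; norm_num
  have h3 : T4 t * 2 ^ k * μ * nl t k μ = t ^ (-(1/100) : ℝ) * μ ^ 2 := by
    unfold nl
    calc T4 t * 2 ^ k * μ * (t ^ (-(19/20) : ℝ) * (1/2) ^ k * μ)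
        = (T4 t * t ^ (-(19/20) : ℝ)) * (2 ^ k * (1/2) ^ k) * μ ^ 2 := by ring
      _ = _ := by rw [h2, h4, mul_one]
  rw [h1, h3]
  refine mul_le_mul_of_nonneg_left ?_ (by positivity)
  have h6 : (0:ℝ) < (9/10) ^ k := by positivity
  exact pow_le_pow_left₀ hμ.le (by linarith) 2

/-- moderately light rows -/
theorem modL {t : ℝ} (h : Big t) (k : ℕ) (μ δ1 : ℝ) (hμ : 0 < μ) (hμ2 : μ ≤ 2)
    (hδ1 : δ1 ≤ 4 * Real.exp (-t)) (hk : (k : ℝ) ≤ 10 * T1 t) :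
    2 * Real.exp (-(dl t k μ ^ 2 / (16 * 400 ^ 2 * nl t k μ))) + sl t k μ * δ1 ≤
      ((1/4) ^ k * Real.exp (-T3 t)) *
        Real.exp (-(2 * (Real.exp (-T2 t) * (sl t k μ * Real.exp (T1 t))))) := by
  have ht := h.pos
  have c1 := h.T1big
  have c2 := h.c21
  have c3 := h.c32
  have c4 := h.c43
  have c5 := h.ct4
  have cL := h.L_le
  have hk0 : (0:ℝ) ≤ k := Nat.cast_nonneg k
  have hT3 : 5 ≤ T3 t := by
    have := h.T1pos
    linarith [show (5:ℝ) ≤ 10 ^ 15 by norm_num]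
  -- support
  have hs1 : sl t k μ ≤ Real.exp (11 * T1 t) := by
    have e1 : sl t k μ ≤ 4 * (Real.exp (2 * Real.log t) * Real.exp (10 * T1 t)) := by
      unfold sl
      have h1 := h.pow39
      have h2 : (2:ℝ) ^ k ≤ Real.exp (10 * T1 t) :=
        (two_pow_le k).trans (Real.exp_le_exp.2 hk)
      calc 2 * t ^ (39/20 : ℝ) * 2 ^ k * μ = 2 * μ * (t ^ (39/20 : ℝ) * 2 ^ k) := by ring
        _ ≤ 4 * (Real.exp (2 * Real.log t) * Real.exp (10 * T1 t)) := by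
            refine mul_le_mul (by linarith) ?_ (by positivity) (by norm_num)
            exact mul_le_mul h1 h2 (by positivity) (Real.exp_pos _).le
    refine e1.trans ?_
    have e2 : (4:ℝ) ≤ Real.exp 3 := by linarith [Real.add_one_le_exp (3:ℝ)]
    calc 4 * (Real.exp (2 * Real.log t) * Real.exp (10 * T1 t))
        ≤ Real.exp 3 * (Real.exp (2 * Real.log t) * Real.exp (10 * T1 t)) :=
          mul_le_mul_of_nonneg_right e2 (by positivity)
      _ = Real.exp (3 + (2 * Real.log t + 10 * T1 t)) := by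
          rw [← Real.exp_add, ← Real.exp_add]
      _ ≤ Real.exp (11 * T1 t) := by
          rw [Real.exp_le_exp]
          have := h.L1
          linarith
  have hs0 : 0 < sl t k μ := by unfold sl; positivity
  have hX : Real.exp (-T2 t) * (sl t k μ * Real.exp (T1 t)) ≤ 1 := by
    calc Real.exp (-T2 t) * (sl t k μ * Real.exp (T1 t))
        ≤ Real.exp (-T2 t) * (Real.exp (11 * T1 t) * Real.exp (T1 t)) := by gcongr
      _ = Real.exp (-T2 t + (11 * T1 t + T1 t)) := by rw [← Real.exp_add, ← Real.exp_add]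
      _ ≤ 1 := by
          rw [Real.exp_le_one_iff]
          have := h.T1pos
          linarith
  have hR : Real.exp (-(2 * k + T3 t + 2)) ≤ ((1/4) ^ k * Real.exp (-T3 t)) *
        Real.exp (-(2 * (Real.exp (-T2 t) * (sl t k μ * Real.exp (T1 t))))) := by
    have e1 : Real.exp (-(2 * k + T3 t + 2)) =
        (Real.exp (-(2 * k)) * Real.exp (-T3 t)) * Real.exp (-2) := by
      rw [← Real.exp_add, ← Real.exp_add]; congr 1; ring
    rw [e1]
    refine mul_le_mul (mul_le_mul_of_nonneg_right (quarter_pow_ge k) (Real.exp_pos _).le) ?_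
      (Real.exp_pos _).le (by positivity)
    rw [Real.exp_le_exp]
    linarith
  refine le_trans ?_ hR
  have hn := nl_pos ht k μ hμ
  have a1 : 2 * Real.exp (-(dl t k μ ^ 2 / (16 * 400 ^ 2 * nl t k μ))) ≤
      (1/2) * Real.exp (-(2 * k + T3 t + 2)) := by
    have b1 : 2 * (k:ℝ) + T3 t + 5 ≤ dl t k μ ^ 2 / (16 * 400 ^ 2 * nl t k μ) := by
      rw [le_div_iff₀ (by positivity)]
      have b2 := ratA ht k μ hμ hμ2
      have b3 : (2 * (k:ℝ) + T3 t + 5) * (16 * 400 ^ 2) ≤ T4 t * (3/2) ^ k / 2 := by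
        have b4 := threehalf_lin k
        have b5 : T4 t * (1 + (k:ℝ) / 2) ≤ T4 t * (3/2) ^ k :=
          mul_le_mul_of_nonneg_left b4 h.T4pos.le
        have b6 : (10:ℝ) ^ 15 * T3 t * (1 + (k:ℝ) / 2) ≤ T4 t * (1 + (k:ℝ) / 2) :=
          mul_le_mul_of_nonneg_right c4 (by positivity)
        have b7 : 5 * (k:ℝ) ≤ T3 t * k := mul_le_mul_of_nonneg_right hT3 hk0
        nlinarith
      calc (2 * (k:ℝ) + T3 t + 5) * (16 * 400 ^ 2 * nl t k μ)
          = ((2 * (k:ℝ) + T3 t + 5) * (16 * 400 ^ 2)) * nl t k μ := by ring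
        _ ≤ T4 t * (3/2) ^ k / 2 * nl t k μ := mul_le_mul_of_nonneg_right b3 hn.le
        _ ≤ _ := b2
    have b8 : Real.exp (-(dl t k μ ^ 2 / (16 * 400 ^ 2 * nl t k μ))) ≤
        Real.exp (-(2 * (k:ℝ) + T3 t + 5)) := by
      rw [Real.exp_le_exp]; linarith
    have b9 : Real.exp (-(2 * (k:ℝ) + T3 t + 5)) =
        Real.exp (-3) * Real.exp (-(2 * (k:ℝ) + T3 t + 2)) := by
      rw [← Real.exp_add]; congr 1; ring
    have b10 : Real.exp (-3) ≤ 1 / 4 := by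
      rw [Real.exp_neg, one_div]
      refine inv_anti₀ (by norm_num) ?_
      linarith [Real.add_one_le_exp (3:ℝ)]
    have b11 := Real.exp_pos (-(2 * (k:ℝ) + T3 t + 2))
    nlinarith
  have a2 : sl t k μ * δ1 ≤ (1/2) * Real.exp (-(2 * k + T3 t + 2)) := by
    have b1 : sl t k μ * δ1 ≤ Real.exp (11 * T1 t) * (4 * Real.exp (-t)) := by
      calc sl t k μ * δ1 ≤ sl t k μ * (4 * Real.exp (-t)) := mul_le_mul_of_nonneg_left hδ1 hs0.le
        _ ≤ _ := mul_le_mul_of_nonneg_right hs1 (by positivity)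
    refine b1.trans ?_
    have e2 : (8:ℝ) ≤ Real.exp 7 := by linarith [Real.add_one_le_exp (7:ℝ)]
    have b3 : Real.exp (11 * T1 t) * Real.exp (-t) * Real.exp 7 ≤
        Real.exp (-(2 * k + T3 t + 2)) := by
      rw [← Real.exp_add, ← Real.exp_add, Real.exp_le_exp]
      have := h.T1pos
      have := h.T3pos
      nlinarith
    have b4 : 0 < Real.exp (11 * T1 t) * Real.exp (-t) := by positivity
    nlinarith
  linarith

/-- very light rows -/
theorem ultL {t : ℝ} (h : Big t) (k : ℕ) (μ : ℝ) (hμ : 0 < μ) (hμ2 : μ ≤ 2)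
    (hk : 10 * T1 t ≤ (k : ℝ)) :
    2 * Real.exp (-(dl t k μ ^ 2 / (4 * 400 ^ 2 * (nl t k μ * Real.exp (T1 t))))) ≤
      ((1/4) ^ k * Real.exp (-T3 t)) *
        Real.exp (-(2 * (Real.exp (-T2 t) * (sl t k μ * Real.exp (T1 t))))) := by
  have ht := h.pos
  have c1 := h.T1big
  have c2 := h.c21
  have c3 := h.c32
  have c4 := h.c43
  have cL := h.L_le
  have hk0 : (0:ℝ) ≤ k := Nat.cast_nonneg k
  have hT3 : 5 ≤ T3 t := by
    have := h.T1pos
    linarith [show (5:ℝ) ≤ 10 ^ 15 by norm_num]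
  have hn := nl_pos ht k μ hμ
  set Bs := Real.exp (T1 t) with hBs
  have hBs0 : 0 < Bs := Real.exp_pos _
  set Xn := Real.exp (-T2 t) * (sl t k μ * Bs) with hXn
  have hp : 0 < 4 * 400 ^ 2 * (nl t k μ * Bs) := by positivity
  have key : (1 + 2 * (k:ℝ) + T3 t) + 2 * Xn ≤ dl t k μ ^ 2 / (4 * 400 ^ 2 * (nl t k μ * Bs)) := by
    rw [le_div_iff₀ hp]
    have rA := ratA ht k μ hμ hμ2
    have rB := ratB ht k μ hμ
    have pa : (1 + 2 * (k:ℝ) + T3 t) * (4 * 400 ^ 2 * Bs) ≤ T4 t * (3/2) ^ k / 4 := by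
      have e1 : Bs * Real.exp (k / 5) ≤ (3/2 : ℝ) ^ k := by
        refine le_trans ?_ (threehalf_ge k)
        rw [hBs, ← Real.exp_add, Real.exp_le_exp]
        linarith
      have e2 : 1 + (k:ℝ) / 5 ≤ Real.exp (k / 5) := by
        linarith [Real.add_one_le_exp ((k:ℝ) / 5)]
      have e3 : (1 + 2 * (k:ℝ) + T3 t) * (4 * 400 ^ 2) ≤ T4 t * (1 + (k:ℝ) / 5) / 4 := by
        have b6 : (10:ℝ) ^ 15 * T3 t * (1 + (k:ℝ) / 5) ≤ T4 t * (1 + (k:ℝ) / 5) :=
          mul_le_mul_of_nonneg_right c4 (by positivity)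
        have b7 : 5 * (k:ℝ) ≤ T3 t * k := mul_le_mul_of_nonneg_right hT3 hk0
        nlinarith
      calc (1 + 2 * (k:ℝ) + T3 t) * (4 * 400 ^ 2 * Bs)
          = ((1 + 2 * (k:ℝ) + T3 t) * (4 * 400 ^ 2)) * Bs := by ring
        _ ≤ (T4 t * (1 + (k:ℝ) / 5) / 4) * Bs := mul_le_mul_of_nonneg_right e3 hBs0.le
        _ = T4 t / 4 * (Bs * (1 + (k:ℝ) / 5)) := by ring
        _ ≤ T4 t / 4 * (Bs * Real.exp (k / 5)) := by
            refine mul_le_mul_of_nonneg_left ?_ (by have := h.T4pos; positivity)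
            exact mul_le_mul_of_nonneg_left e2 hBs0.le
        _ ≤ T4 t / 4 * (3/2 : ℝ) ^ k :=
            mul_le_mul_of_nonneg_left e1 (by have := h.T4pos; positivity)
        _ = T4 t * (3/2) ^ k / 4 := by ring
    have pb : (2 * Xn) * (4 * 400 ^ 2 * Bs) ≤ T4 t * 2 ^ k * μ / 2 := by
      have e1 : Real.exp (-T2 t) * t ^ (39/20 : ℝ) * (Bs * Bs) ≤ 1 := by
        calc Real.exp (-T2 t) * t ^ (39/20 : ℝ) * (Bs * Bs)
            ≤ Real.exp (-T2 t) * Real.exp (2 * Real.log t) * (Bs * Bs) := by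
              have := h.pow39
              gcongr
          _ = Real.exp ((-T2 t + 2 * Real.log t) + (T1 t + T1 t)) := by
              rw [hBs, ← Real.exp_add, ← Real.exp_add, ← Real.exp_add]
          _ ≤ 1 := by
              rw [Real.exp_le_one_iff]
              have := h.T1pos
              linarith
      have e2 : (2 * Xn) * (4 * 400 ^ 2 * Bs) =
          (16 * 400 ^ 2) * (Real.exp (-T2 t) * t ^ (39/20 : ℝ) * (Bs * Bs)) * (2 ^ k * μ) := by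
        rw [hXn]
        unfold sl
        ring
      rw [e2]
      have e3 : (16 * 400 ^ 2 : ℝ) ≤ T4 t / 2 := by
        have := h.T1pos
        nlinarith
      calc (16 * 400 ^ 2) * (Real.exp (-T2 t) * t ^ (39/20 : ℝ) * (Bs * Bs)) * (2 ^ k * μ)
          ≤ (16 * 400 ^ 2) * 1 * (2 ^ k * μ) := by gcongr
        _ ≤ T4 t / 2 * (2 ^ k * μ) := by
            rw [mul_one]
            exact mul_le_mul_of_nonneg_right e3 (by positivity)
        _ = T4 t * 2 ^ k * μ / 2 := by ring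
    calc ((1 + 2 * (k:ℝ) + T3 t) + 2 * Xn) * (4 * 400 ^ 2 * (nl t k μ * Bs))
        = ((1 + 2 * (k:ℝ) + T3 t) * (4 * 400 ^ 2 * Bs) + (2 * Xn) * (4 * 400 ^ 2 * Bs)) *
            nl t k μ := by ring
      _ ≤ (T4 t * (3/2) ^ k / 4 + T4 t * 2 ^ k * μ / 2) * nl t k μ :=
          mul_le_mul_of_nonneg_right (add_le_add pa pb) hn.le
      _ = (1/2) * (T4 t * (3/2) ^ k / 2 * nl t k μ) + (1/2) * (T4 t * 2 ^ k * μ * nl t k μ) := by
          ring
      _ ≤ dl t k μ ^ 2 := by linarith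
  have e4 : 2 * Real.exp (-1) ≤ 1 := by
    have h1 : (2 : ℝ) ≤ Real.exp 1 := by linarith [Real.add_one_le_exp (1:ℝ)]
    rw [Real.exp_neg]
    have h2 : (Real.exp 1)⁻¹ ≤ 2⁻¹ := inv_anti₀ (by norm_num) h1
    linarith
  calc 2 * Real.exp (-(dl t k μ ^ 2 / (4 * 400 ^ 2 * (nl t k μ * Bs))))
      ≤ 2 * Real.exp (-((1 + 2 * (k:ℝ) + T3 t) + 2 * Xn)) := by
        refine mul_le_mul_of_nonneg_left ?_ (by norm_num)
        rw [Real.exp_le_exp]; linarith
    _ = (2 * Real.exp (-1)) * ((Real.exp (-(2 * k)) * Real.exp (-T3 t)) * Real.exp (-(2 * Xn))) := by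
        rw [mul_assoc, ← Real.exp_add, ← Real.exp_add, ← Real.exp_add]
        congr 2
        ring
    _ ≤ 1 * (((1/4) ^ k * Real.exp (-T3 t)) * Real.exp (-(2 * Xn))) := by
        refine mul_le_mul e4 ?_ (by positivity) (by norm_num)
        refine mul_le_mul_of_nonneg_right ?_ (Real.exp_pos _).le
        exact mul_le_mul_of_nonneg_right (quarter_pow_ge k) (Real.exp_pos _).le
    _ = _ := by rw [one_mul]

end

end Pool.Agent.Q271.LD2
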